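import Pool.Agent.Lib.MP_a7b2aa_an.SBF.Stmts65

/-!
SBF (helper60): ABSORB. Blocks with a large neighbour are charged to it (pure combinatorics).
-/

set_option autoImplicit false

namespace Pool.Agent.SBF.Absorb60

open Finset Pool.Agent.SBF

/-- the number of blocks at distance `d` from a given one -/
theorem card_dd_60 (m d : ℕ) (l' : Fin 3 → ℕ) :
    ((Finset.Nat.antidiagonalTuple 3 m).filter (fun l => dd l l' = d)).card ≤
      (2 * d + 1) ^ 2 := by
  classical
  have h : ((Finset.Nat.antidiagonalTuple 3 m).filter (fun l => dd l l' = d)).card ≤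
      (range (2 * d + 1) ×ˢ range (2 * d + 1)).card := by
    apply Finset.card_le_card_of_injOn (fun l => (l 0 + d - l' 0, l 1 + d - l' 1))
    · intro l hl
      rw [mem_coe, mem_filter] at hl
      obtain ⟨_, h⟩ := hl
      unfold dd at h
      rw [mem_coe, mem_product, mem_range, mem_range]
      dsimp only
      constructor <;> omega
    · intro a ha b hb hab
      rw [mem_coe, mem_filter, Finset.Nat.mem_antidiagonalTuple, Fin.sum_univ_three] at ha hb
      simp only [Prod.mk.injEq] at hab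
      obtain ⟨ha1, ha2⟩ := ha
      obtain ⟨hb1, hb2⟩ := hb
      unfold dd at ha2 hb2
      obtain ⟨h1, h2⟩ := hab
      have e0 : a 0 = b 0 := by omega
      have e1 : a 1 = b 1 := by omega
      have e2 : a 2 = b 2 := by omega
      funext i
      fin_cases i
      · exact e0
      · exact e1
      · exact e2
  rw [card_product, card_range] at h
  rw [sq]
  exact h

theorem sq_le_60 (d : ℕ) : ((2 * d + 1 : ℕ) : ℝ) ^ 2 ≤ 72 * (6 / 5) ^ d := by
  rcases Nat.lt_or_ge d 10 with h | h
  · interval_cases d <;> norm_num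
  · induction d, h using Nat.le_induction with
    | base => norm_num
    | succ n hn ih =>
      have h1 : (10 : ℝ) ≤ n := by exact_mod_cast hn
      have h2 : (72 : ℝ) * (6 / 5) ^ (n + 1) = 6 / 5 * (72 * (6 / 5) ^ n) := by ring
      rw [h2]
      push_cast at ih ⊢
      nlinarith

theorem sum_le_60 (n : ℕ) :
    ∑ d ∈ range n, ((2 * d + 1 : ℕ) : ℝ) ^ 2 * (25 / 36) ^ d ≤ 432 := by
  have h1 : ∀ d ∈ range n, ((2 * d + 1 : ℕ) : ℝ) ^ 2 * (25 / 36) ^ d ≤ 72 * (5 / 6) ^ d := by
    intro d _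
    have e : (5 / 6 : ℝ) ^ d = (6 / 5) ^ d * (25 / 36) ^ d := by
      rw [← mul_pow]
      norm_num
    rw [e, ← mul_assoc]
    exact mul_le_mul_of_nonneg_right (sq_le_60 d) (by positivity)
  refine (sum_le_sum h1).trans ?_
  rw [← mul_sum]
  have h2 := geom_sum_mul_neg (5 / 6 : ℝ) n
  have h3 : (0 : ℝ) ≤ (5 / 6) ^ n := by positivity
  nlinarith

theorem cnt_nonneg_60 (m : ℕ) (P : (Fin 3 → ℕ) → Prop) : 0 ≤ cnt m P := by
  unfold cnt
  exact Nat.cast_nonneg _

theorem cnt_congr_60 (m : ℕ) {P Q : (Fin 3 → ℕ) → Prop}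
    (h : ∀ l ∈ Finset.Nat.antidiagonalTuple 3 m, (P l ↔ Q l)) : cnt m P = cnt m Q := by
  classical
  unfold cnt
  congr 2
  exact filter_congr h

theorem cnt_zero_60 (m : ℕ) {P : (Fin 3 → ℕ) → Prop}
    (h : ∀ l ∈ Finset.Nat.antidiagonalTuple 3 m, ¬ P l) : cnt m P = 0 := by
  classical
  unfold cnt
  rw [Nat.cast_eq_zero, card_eq_zero, filter_eq_empty_iff]
  exact fun l hl => h l hl

theorem cnt_split_60 (m : ℕ) {P Q R : (Fin 3 → ℕ) → Prop}
    (h : ∀ l ∈ Finset.Nat.antidiagonalTuple 3 m, P l → Q l ∨ R l) :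
    cnt m P ≤ cnt m Q + cnt m R := by
  classical
  unfold cnt
  have h1 : ((Finset.Nat.antidiagonalTuple 3 m).filter P) ⊆
      ((Finset.Nat.antidiagonalTuple 3 m).filter Q) ∪
      ((Finset.Nat.antidiagonalTuple 3 m).filter R) := by
    intro l hl
    rw [mem_filter] at hl
    rw [mem_union, mem_filter, mem_filter]
    rcases h l hl.1 hl.2 with h2 | h2
    · exact Or.inl ⟨hl.1, h2⟩
    · exact Or.inr ⟨hl.1, h2⟩
  have h2 := (card_le_card h1).trans (card_union_le _ _)
  exact_mod_cast h2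

/-- the number of blocks with a large neighbour -/
theorem bad_60 (m : ℕ) (T : (Fin 3 → ℕ) → ℝ) (v : ℝ) :
    cnt m (fun l => ∃ l' ∈ Finset.Nat.antidiagonalTuple 3 m,
      2000 * v * (36 / 25) ^ dd l l' < T l') ≤
    ∑ d ∈ range (2 * m + 1), ((2 * d + 1 : ℕ) : ℝ) ^ 2 *
      cnt m (fun l => 2000 * v * (36 / 25) ^ d ≤ T l) := by
  classical
  unfold cnt
  set S := Finset.Nat.antidiagonalTuple 3 m with hS
  have hsub : (S.filter (fun l => ∃ l' ∈ S, 2000 * v * (36 / 25) ^ dd l l' < T l')) ⊆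
      (range (2 * m + 1)).biUnion (fun d =>
        (S.filter (fun l' => 2000 * v * (36 / 25) ^ d ≤ T l')).biUnion
          (fun l' => S.filter (fun l => dd l l' = d))) := by
    intro l hl
    rw [mem_filter] at hl
    obtain ⟨hl, l', hl', h⟩ := hl
    simp only [mem_biUnion, mem_filter, mem_range]
    refine ⟨dd l l', ?_, l', ⟨hl', h.le⟩, hl, rfl⟩
    rw [hS, Finset.Nat.mem_antidiagonalTuple, Fin.sum_univ_three] at hl hl'
    unfold dd
    omega
  have h1 : (S.filter (fun l => ∃ l' ∈ S, 2000 * v * (36 / 25) ^ dd l l' < T l')).card ≤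
      ∑ d ∈ range (2 * m + 1), (2 * d + 1) ^ 2 *
        (S.filter (fun l' => 2000 * v * (36 / 25) ^ d ≤ T l')).card := by
    refine (card_le_card hsub).trans (card_biUnion_le.trans (sum_le_sum fun d _ => ?_))
    refine card_biUnion_le.trans ?_
    have h3 := sum_le_card_nsmul (S.filter (fun l' => 2000 * v * (36 / 25) ^ d ≤ T l'))
      (fun l' => (S.filter (fun l => dd l l' = d)).card) ((2 * d + 1) ^ 2)
      (fun l' _ => card_dd_60 m d l')
    rw [smul_eq_mul] at h3
    exact h3.trans_eq (mul_comm _ _)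
  exact_mod_cast h1

theorem absorb_60 : StAbsorb := by
  classical
  intro m T A w hw hA H
  set S := Finset.Nat.antidiagonalTuple 3 m with hS
  set N : ℝ → ℝ := fun v => cnt m (fun l => v ≤ T l) with hN
  have hN0 : ∀ v, 0 ≤ N v := fun v => cnt_nonneg_60 m _
  by_cases hne : (S.filter (fun l => w ≤ T l)).Nonempty
  · obtain ⟨l0, hl0, hmax⟩ := exists_max_image (S.filter (fun l => w ≤ T l))
      (fun l => T l * N (T l)) hne
    rw [mem_filter] at hl0
    obtain ⟨hl0S, hl0w⟩ := hl0
    set v := T l0 with hv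
    have hv0 : 0 < v := lt_of_lt_of_le hw hl0w
    have hW0 : 0 ≤ v * N v := mul_nonneg hv0.le (hN0 v)
    have key : ∀ v', w ≤ v' → v' * N v' ≤ v * N v := by
      intro v' hv'
      by_cases h : (S.filter (fun l => v' ≤ T l)).Nonempty
      · obtain ⟨l1, hl1, hmin⟩ := exists_min_image _ T h
        rw [mem_filter] at hl1
        have h1 : N v' = N (T l1) := by
          apply cnt_congr_60
          intro l hl
          constructor
          · intro h2
            exact hmin l (mem_filter.2 ⟨hl, h2⟩)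
          · intro h2
            exact hl1.2.trans h2
        calc v' * N v' ≤ T l1 * N v' := mul_le_mul_of_nonneg_right hl1.2 (hN0 _)
          _ = T l1 * N (T l1) := by rw [h1]
          _ ≤ v * N v := hmax l1 (mem_filter.2 ⟨hl1.1, hv'.trans hl1.2⟩)
      · have h1 : N v' = 0 := by
          apply cnt_zero_60
          intro l hl h2
          exact h ⟨l, mem_filter.2 ⟨hl, h2⟩⟩
        rw [h1, mul_zero]
        exact hW0
    have hgood := H v hl0w
    have hsplit : N v ≤ cnt m (fun l => v ≤ T l ∧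
        ∀ l' ∈ S, T l' ≤ 2000 * v * (36 / 25) ^ dd l l') +
        cnt m (fun l => ∃ l' ∈ S, 2000 * v * (36 / 25) ^ dd l l' < T l') := by
      apply cnt_split_60
      intro l _ h1
      by_cases h2 : ∃ l' ∈ S, 2000 * v * (36 / 25) ^ dd l l' < T l'
      · exact Or.inr h2
      · push Not at h2
        exact Or.inl ⟨h1, h2⟩
    have hbad : v * cnt m (fun l => ∃ l' ∈ S, 2000 * v * (36 / 25) ^ dd l l' < T l') ≤
        (v * N v) * (432 / 2000) := by
      have h1 := bad_60 m T v
      have h2 : ∀ d ∈ range (2 * m + 1), v * (((2 * d + 1 : ℕ) : ℝ) ^ 2 *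
          cnt m (fun l => 2000 * v * (36 / 25) ^ d ≤ T l)) ≤
          (v * N v) / 2000 * (((2 * d + 1 : ℕ) : ℝ) ^ 2 * (25 / 36) ^ d) := by
        intro d _
        have h3 : (1 : ℝ) ≤ (36 / 25) ^ d := one_le_pow₀ (by norm_num)
        have h4 : w ≤ 2000 * v * (36 / 25) ^ d := by nlinarith
        have h5 := key _ h4
        have e : (36 / 25 : ℝ) ^ d * (25 / 36) ^ d = 1 := by
          rw [← mul_pow]
          norm_num
        have h6 : v * N (2000 * v * (36 / 25) ^ d) ≤ (v * N v) / 2000 * (25 / 36) ^ d := by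
          have h7 : (0 : ℝ) ≤ (25 / 36) ^ d := by positivity
          have h8 := mul_le_mul_of_nonneg_right h5 h7
          have h9 : 2000 * v * (36 / 25) ^ d * N (2000 * v * (36 / 25) ^ d) * (25 / 36) ^ d =
              2000 * (v * N (2000 * v * (36 / 25) ^ d)) := by
            calc _ = 2000 * (v * N (2000 * v * (36 / 25) ^ d)) *
                  ((36 / 25 : ℝ) ^ d * (25 / 36) ^ d) := by ring
              _ = _ := by rw [e, mul_one]
          rw [h9] at h8
          linarith
        have h10 : (0 : ℝ) ≤ ((2 * d + 1 : ℕ) : ℝ) ^ 2 := by positivity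
        calc _ = ((2 * d + 1 : ℕ) : ℝ) ^ 2 * (v * N (2000 * v * (36 / 25) ^ d)) := by
              rw [hN]
              ring
          _ ≤ ((2 * d + 1 : ℕ) : ℝ) ^ 2 * ((v * N v) / 2000 * (25 / 36) ^ d) :=
              mul_le_mul_of_nonneg_left h6 h10
          _ = _ := by ring
      calc _ ≤ v * ∑ d ∈ range (2 * m + 1), ((2 * d + 1 : ℕ) : ℝ) ^ 2 *
            cnt m (fun l => 2000 * v * (36 / 25) ^ d ≤ T l) :=
            mul_le_mul_of_nonneg_left h1 hv0.le
        _ = ∑ d ∈ range (2 * m + 1), v * (((2 * d + 1 : ℕ) : ℝ) ^ 2 *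
            cnt m (fun l => 2000 * v * (36 / 25) ^ d ≤ T l)) := mul_sum _ _ _
        _ ≤ ∑ d ∈ range (2 * m + 1),
            (v * N v) / 2000 * (((2 * d + 1 : ℕ) : ℝ) ^ 2 * (25 / 36) ^ d) := sum_le_sum h2
        _ = (v * N v) / 2000 * ∑ d ∈ range (2 * m + 1),
            ((2 * d + 1 : ℕ) : ℝ) ^ 2 * (25 / 36) ^ d := (mul_sum _ _ _).symm
        _ ≤ (v * N v) / 2000 * 432 :=
            mul_le_mul_of_nonneg_left (sum_le_60 _) (by positivity)
        _ = _ := by ring
    have h1 := mul_le_mul_of_nonneg_left hsplit hv0.le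
    rw [mul_add] at h1
    have h2 := key w le_rfl
    change w * N w ≤ 2 * A
    linarith
  · have h1 : N w = 0 := by
      apply cnt_zero_60
      intro l hl h2
      exact hne ⟨l, mem_filter.2 ⟨hl, h2⟩⟩
    change w * N w ≤ 2 * A
    rw [h1, mul_zero]
    linarith

end Pool.Agent.SBF.Absorb60
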