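import Pool.Agent.Lib.MP_a7b2aa_an.SBF.Stmts65
import Pool.Agent.Lib.MP_a7b2aa_an.SBT.Ber3_38
import Pool.Agent.Lib.MP_a7b2aa_an.SBT.Vp30
import Pool.Agent.Lib.MP_a7b2aa_an.SBT.Fej30

/-!
SBF, module D2 (helper38): Bernstein's inequality for mixed differences in `l ^ 2`.
-/

set_option autoImplicit false

namespace Pool.Agent.SBF

open Finset Pool.Agent.SB3 Pool.Agent.SBT

section base

variable {ι : Type} [Fintype ι] [DecidableEq ι] {N : ℕ} [NeZero N]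

lemma n2_eq_38 (φ : Tor ι N → ℝ) :
    n2 φ = ‖(WithLp.toLp 2 φ : EuclideanSpace ℝ (Tor ι N))‖ := by
  rw [EuclideanSpace.norm_eq, n2]
  congr 1
  apply Finset.sum_congr rfl
  intro u _
  simp

lemma n2_nonneg_38 (φ : Tor ι N → ℝ) : 0 ≤ n2 φ := Real.sqrt_nonneg _

lemma n2_sum_38 {α : Type} (s : Finset α) (f : α → Tor ι N → ℝ) :
    n2 (fun u => ∑ a ∈ s, f a u) ≤ ∑ a ∈ s, n2 (f a) := by
  simp only [n2_eq_38]
  have h : (WithLp.toLp 2 (fun u => ∑ a ∈ s, f a u) : EuclideanSpace ℝ (Tor ι N)) =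
      ∑ a ∈ s, (WithLp.toLp 2 (f a) : EuclideanSpace ℝ (Tor ι N)) := by
    ext u
    simp
  rw [h]
  exact norm_sum_le _ _

lemma n2_smul_38 (r : ℝ) (φ : Tor ι N → ℝ) : n2 (fun u => r * φ u) = |r| * n2 φ := by
  unfold n2
  simp_rw [mul_pow]
  rw [← Finset.mul_sum, Real.sqrt_mul (sq_nonneg r), Real.sqrt_sq_eq_abs]

lemma n2_sv_38 (j : ι) (g : ZMod N) (φ : Tor ι N → ℝ) :
    n2 (fun u => φ (sv j g u)) = n2 φ := by
  unfold n2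
  rw [sum_sv_38 j g (fun u => φ u ^ 2)]

lemma n2_Ko_38 (j : ι) (w : ZMod N → ℝ) (φ : Tor ι N → ℝ) :
    n2 (Ko38 j w φ) ≤ (∑ g, |w g|) * n2 φ := by
  unfold Ko38
  refine (n2_sum_38 Finset.univ (fun g u => w g * φ (sv j g u))).trans ?_
  rw [Finset.sum_mul]
  apply Finset.sum_le_sum
  intro g _
  rw [n2_smul_38, n2_sv_38]

end base

/-- one direction, from BERK -/
lemma berT_38 (hB : StBerK) (a : ℕ) (l : Fin 3 → ℕ) (hl : ∀ j, 2 * l j + 2 ≤ a) (j : Fin 3)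
    (X : ℕ) (hX : X + 2 ≤ a) (c : (Fin 3 → ℤ) → ℂ) :
    n2 (dT j (Hs a X) (PT (N := 2 ^ a) (blk l) c)) ≤
      32 * (1 / 2 : ℝ) ^ (X - 2 * l j) * n2 (PT (N := 2 ^ a) (blk l) c) := by
  obtain ⟨κ, hκ, heq⟩ := hB (Fin 3) a (2 * l j) X j (blk l) c (hl j) hX
    (fun k hk => (mem_blk_38 hk j).2)
  have h1 : dT j (Hs a X) (PT (N := 2 ^ a) (blk l) c) = Ko38 j κ (PT (N := 2 ^ a) (blk l) c) := by
    funext u
    exact heq u
  rw [h1]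
  exact (n2_Ko_38 j κ _).trans (mul_le_mul_of_nonneg_right hκ (n2_nonneg_38 _))

/-- three directions -/
lemma ber3T_38 (hB : StBerK) (a X Y' Z : ℕ) (l : Fin 3 → ℕ) (c : (Fin 3 → ℤ) → ℂ)
    (hl : ∀ j, 2 * l j + 2 ≤ a) (hX : X + 2 ≤ a) (hY : Y' + 2 ≤ a) (hZ : Z + 2 ≤ a) :
    n2 (D3 a X Y' Z (PT (blk l) c)) ≤
      32 ^ 3 * (1 / 2 : ℝ) ^ ((X - 2 * l 0) + (Y' - 2 * l 1) + (Z - 2 * l 2)) *
        n2 (PT (N := 2 ^ a) (blk l) c) := by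
  obtain ⟨c2, hc2⟩ := dT_PT_38 (N := 2 ^ a) (2 : Fin 3) (Hs a Z) (blk l) c
  obtain ⟨c1, hc1⟩ := dT_PT_38 (N := 2 ^ a) (1 : Fin 3) (Hs a Y') (blk l) c2
  have s2 := berT_38 hB a l hl 2 Z hZ c
  have s1 := berT_38 hB a l hl 1 Y' hY c2
  have s0 := berT_38 hB a l hl 0 X hX c1
  rw [hc2] at s2
  rw [hc1] at s1
  unfold D3
  rw [hc2, hc1]
  calc n2 (dT 0 (Hs a X) (PT (N := 2 ^ a) (blk l) c1)) ≤
        32 * (1 / 2 : ℝ) ^ (X - 2 * l 0) * n2 (PT (N := 2 ^ a) (blk l) c1) := s0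
    _ ≤ 32 * (1 / 2 : ℝ) ^ (X - 2 * l 0) * (32 * (1 / 2 : ℝ) ^ (Y' - 2 * l 1) *
          n2 (PT (N := 2 ^ a) (blk l) c2)) := mul_le_mul_of_nonneg_left s1 (by positivity)
    _ ≤ 32 * (1 / 2 : ℝ) ^ (X - 2 * l 0) * (32 * (1 / 2 : ℝ) ^ (Y' - 2 * l 1) *
          (32 * (1 / 2 : ℝ) ^ (Z - 2 * l 2) * n2 (PT (N := 2 ^ a) (blk l) c))) :=
        mul_le_mul_of_nonneg_left (mul_le_mul_of_nonneg_left s2 (by positivity)) (by positivity)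
    _ = _ := by rw [pow_add, pow_add]; ring

/-- D2 from BERK -/
theorem d2_of_38 (hB : StBerK) : StD2 := by
  intro m c X Y' Z hX hY hZ
  have h0 : Fm m c = fun u => ∑ l ∈ Finset.Nat.antidiagonalTuple 3 m,
      PT (N := 2 ^ (2 * m + 3)) (blk l) c u := rfl
  have h1 : D3 (2 * m + 3) X Y' Z (Fm m c) =
      fun u => ∑ l ∈ Finset.Nat.antidiagonalTuple 3 m,
        D3 (2 * m + 3) X Y' Z (PT (N := 2 ^ (2 * m + 3)) (blk l) c) u := by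
    unfold D3
    rw [h0, PT_sum_38, PT_sum_38, PT_sum_38]
  rw [h1]
  refine (n2_sum_38 _ _).trans ?_
  rw [Finset.mul_sum]
  apply Finset.sum_le_sum
  intro l hl
  rw [← mul_assoc]
  exact ber3T_38 hB (2 * m + 3) X Y' Z l c (fun j => by have := anti_le_38 hl j; omega)
    (by omega) (by omega) (by omega)

/-- D2 -/
theorem d2_38 : StD2 := d2_of_38 (berK_30 (vp_30 fej_30))

end Pool.Agent.SBF
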