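import Pool.Agent.Lib.MP_a7b2aa_an.SBF.DiscG65

/-!
SBF, module DISCF (helper65), third part: the theorem on the discrete torus.
-/

set_option autoImplicit false

namespace Pool.Agent.SBF

open Finset Pool.Agent.SB3 Pool.Agent.SBT Pool.Agent.SBT.D76

theorem discF_65 (habs : StAbsW) (hber : StBer3) (hlow : StLow) (htra : StTra)
    (htra2 : StTra2) (hkey : StKey) (hD2 : StD2) (hA : StNumA) (hB : StNumB) : StDiscF := by
  intro K hK
  obtain ⟨δ, hδ, C0, hC0, habs⟩ := habs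
  obtain ⟨CL, hCL, hlow⟩ := hlow
  obtain ⟨CA, hCA, hA⟩ := hA
  obtain ⟨CB, hCB, hB⟩ := hB
  have hK0 : 0 < K := by linarith
  set κ : ℝ := (32 ^ 3 * CA * (2000 * K) * (16 * CL)) ^ 2 with hκd
  have hκ : 0 < κ := by positivity
  set D : ℝ := 32 ^ 3 * CB * (2000 * K) * (16 * CL) with hD
  have hD0 : 0 < D := by positivity
  obtain ⟨n, hn⟩ := exists_pow_lt_of_lt_one
    (show (0 : ℝ) < min 1 (δ / κ) / D by
      have : 0 < min 1 (δ / κ) := lt_min one_pos (by positivity)
      positivity)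
    (show (18 / 25 : ℝ) < 1 by norm_num)
  set β : ℕ := 2 * n + 10 with hβ
  have hβ10 : 10 ≤ β := by omega
  have hβ0 : 0 < β := by omega
  set e : ℝ := (18 / 25 : ℝ) ^ (β / 2) with he
  have he0 : 0 < e := by positivity
  have hsm : D * e ≤ min 1 (δ / κ) := by
    have e1 : β / 2 = n + 5 := by omega
    have e2 : e ≤ (18 / 25 : ℝ) ^ n := by
      rw [he, e1]
      exact pow_le_pow_of_le_one (by norm_num) (by norm_num) (by omega)
    have e3 := e2.trans hn.le
    rw [le_div_iff₀ hD0] at e3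
    linarith
  have hs1 : D * e ≤ 1 := hsm.trans (min_le_left _ _)
  have hs2 : D * e ≤ δ / κ := hsm.trans (min_le_right _ _)
  refine ⟨16 * CL * ((β : ℝ) ^ 2 * (κ * C0)), by positivity, ?_⟩
  intro m c T M w hm hw hM hT
  have hM0 : 0 ≤ M := (abs_nonneg _).trans (hM 0)
  set N : ℝ := (2 ^ (2 * m + 3)) ^ 3 with hN
  have hN0 : 0 < N := by positivity
  set w1 : ℝ := w / (16 * CL) with hw1d
  have hw1 : 0 < w1 := by positivity
  have hww : w = 16 * CL * w1 := by
    rw [hw1d]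
    field_simp
  set P : (Fin 3 → ℕ) → Prop := fun l => l ∈ Finset.Nat.antidiagonalTuple 3 m ∧
    (∀ j, 1 ≤ l j) ∧ w / 4 * N ≤ S1 (PT (N := 2 ^ (2 * m + 3)) (blk l) c) ∧
    ∀ l' ∈ Finset.Nat.antidiagonalTuple 3 m, T l' ≤ 2000 * w * (36 / 25) ^ dd l l' with hPd
  -- the properties of good blocks
  have hP : ∀ l, P l → 4 * w1 * N ≤
        S1 (D3 (2 * m + 3) (2 * l 0) (2 * l 1) (2 * l 2) (Fm m c)) ∧
      Bub m β c l ≤ w1 * N ∧
      Bub m β c l ≤ δ * w1 / κ * N ∧
      ∑ u, (D3 (2 * m + 3) (2 * l 0) (2 * l 1) (2 * l 2) (Fm m c) u) ^ 2 ≤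
        κ * w1 ^ 2 * N := by
    rintro l ⟨hl, h1, hS, hTl⟩
    have hgrow : ∀ l' : Fin 3 → ℕ, (1 : ℝ) ≤ (36 / 25) ^ dd l l' :=
      fun l' => one_le_pow₀ (by norm_num)
    have hn2 : ∀ l' ∈ Finset.Nat.antidiagonalTuple 3 m,
        n2 (PT (N := 2 ^ (2 * m + 3)) (blk l') c) ≤
          2000 * K * w * Real.sqrt N * (36 / 25) ^ dd l l' := by
      intro l' hl'
      refine (hT l' hl').trans ?_
      have h2 : max w (T l') ≤ 2000 * w * (36 / 25) ^ dd l l' := by
        refine max_le ?_ (hTl l' hl')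
        have := hgrow l'
        have h3 : w * 1 ≤ w * (36 / 25) ^ dd l l' := mul_le_mul_of_nonneg_left this hw.le
        have h4 : 0 ≤ w * (36 / 25 : ℝ) ^ dd l l' := by positivity
        linarith
      calc K * max w (T l') * Real.sqrt N ≤ K * (2000 * w * (36 / 25) ^ dd l l') * Real.sqrt N :=
            mul_le_mul_of_nonneg_right (mul_le_mul_of_nonneg_left h2 hK0.le) (Real.sqrt_nonneg _)
        _ = _ := by ring
    have hS1 : ∀ l' ∈ Finset.Nat.antidiagonalTuple 3 m,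
        S1 (PT (N := 2 ^ (2 * m + 3)) (blk l') c) ≤
          2000 * K * w * N * (36 / 25) ^ dd l l' := by
      intro l' hl'
      refine (S1_le_n2 m _).trans ?_
      calc Real.sqrt ((2 ^ (2 * m + 3)) ^ 3) * n2 (PT (N := 2 ^ (2 * m + 3)) (blk l') c)
          ≤ Real.sqrt N * (2000 * K * w * Real.sqrt N * (36 / 25) ^ dd l l') :=
            mul_le_mul_of_nonneg_left (hn2 l' hl') (Real.sqrt_nonneg _)
        _ = 2000 * K * w * (Real.sqrt N * Real.sqrt N) * (36 / 25) ^ dd l l' := by ring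
        _ = _ := by rw [Real.mul_self_sqrt hN0.le]
    have hbub := bub_le CB β m c (2000 * K * w * N) (by positivity) l
      (hB β m (m + 2) l hβ10 hl) hS1
    have hbub' : Bub m β c l ≤ D * e * (w1 * N) := by
      refine hbub.trans (le_of_eq ?_)
      rw [hD, hww]
      ring
    refine ⟨?_, ?_, ?_, ?_⟩
    · have h2 := hS.trans (hlow m l c hl h1)
      have h3 : CL * (4 * w1 * N) ≤
          CL * S1 (D3 (2 * m + 3) (2 * l 0) (2 * l 1) (2 * l 2) (Fm m c)) := by
        refine le_trans (le_of_eq ?_) h2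
        rw [hww]
        ring
      exact le_of_mul_le_mul_left h3 hCL
    · refine hbub'.trans ?_
      have := mul_le_mul_of_nonneg_right hs1 (show 0 ≤ w1 * N by positivity)
      linarith
    · refine hbub'.trans ?_
      have := mul_le_mul_of_nonneg_right hs2 (show 0 ≤ w1 * N by positivity)
      refine this.trans (le_of_eq ?_)
      ring
    · have h2 := sec_le hD2 CA m c (2000 * K * w * Real.sqrt N) (by positivity) l hl
        (hA m l hl) hn2
      have h3 : ∑ u, (D3 (2 * m + 3) (2 * l 0) (2 * l 1) (2 * l 2) (Fm m c) u) ^ 2 =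
          n2 (D3 (2 * m + 3) (2 * l 0) (2 * l 1) (2 * l 2) (Fm m c)) ^ 2 := by
        unfold n2
        rw [Real.sq_sqrt (Finset.sum_nonneg (fun _ _ => sq_nonneg _))]
      rw [h3]
      have h4 : 0 ≤ n2 (D3 (2 * m + 3) (2 * l 0) (2 * l 1) (2 * l 2) (Fm m c)) :=
        Real.sqrt_nonneg _
      refine (pow_le_pow_left₀ h4 h2 2).trans (le_of_eq ?_)
      rw [hκd, hww]
      have h5 : Real.sqrt N ^ 2 = N := Real.sq_sqrt hN0.le
      calc (32 ^ 3 * CA * (2000 * K * (16 * CL * w1) * Real.sqrt N)) ^ 2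
          = (32 ^ 3 * CA * (2000 * K) * (16 * CL)) ^ 2 * w1 ^ 2 * Real.sqrt N ^ 2 := by ring
        _ = _ := by rw [h5]
  -- counting
  set ind : (Fin 3 → ℕ) → ℝ := fun l => @ite ℝ (P l) (Classical.propDecidable _) 1 0 with hind
  have hcnt : cnt m (fun l => (∀ j, 1 ≤ l j) ∧
        w / 4 * N ≤ S1 (PT (N := 2 ^ (2 * m + 3)) (blk l) c) ∧
        ∀ l' ∈ Finset.Nat.antidiagonalTuple 3 m, T l' ≤ 2000 * w * (36 / 25) ^ dd l l') =
      ∑ l ∈ Finset.Nat.antidiagonalTuple 3 m, ind l := by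
    unfold cnt
    rw [Finset.card_filter, Nat.cast_sum]
    refine Finset.sum_congr rfl (fun l hl => ?_)
    simp only [hind]
    by_cases hp : P l
    · rw [if_pos hp, if_pos hp.2]
      simp
    · rw [if_neg hp, if_neg (fun h => hp ⟨hl, h⟩)]
      simp
  rw [hcnt]
  have hall : w1 * ∑ l ∈ Finset.Nat.antidiagonalTuple 3 m, ind l ≤
      (β : ℝ) ^ 2 * (κ * C0 * (Real.sqrt (2 * m) * M)) := by
    rw [sum_tuple, sum_PP m β hβ0, Finset.mul_sum]
    have hc : (β : ℝ) ^ 2 * (κ * C0 * (Real.sqrt (2 * m) * M)) =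
        ∑ _y ∈ range β ×ˢ range β, κ * C0 * (Real.sqrt (2 * m) * M) := by
      rw [Finset.sum_const, Finset.card_product, Finset.card_range, nsmul_eq_mul]
      push_cast
      ring
    rw [hc]
    refine Finset.sum_le_sum ?_
    rintro ⟨y0, z0⟩ hy
    rw [mem_product, mem_range, mem_range] at hy
    by_cases hyz : y0 + z0 ≤ m
    · rw [sum_class m β y0 z0 hβ0 hyz hy.1 hy.2]
      exact class_good δ C0 hδ hC0 habs hkey hber htra htra2 m β y0 z0 c M w1 κ hM hM0 hm
        hyz hw1 hκ P hP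
    · rw [sum_class_empty m β y0 z0 hyz]
      have : 0 ≤ κ * C0 * (Real.sqrt (2 * m) * M) := by positivity
      simpa using this
  have hfin := mul_le_mul_of_nonneg_left hall (show 0 ≤ 16 * CL by positivity)
  generalize ∑ l ∈ Finset.Nat.antidiagonalTuple 3 m, ind l = S at hfin ⊢
  calc w * S = 16 * CL * (w1 * S) := by
        rw [hww]
        ring
    _ ≤ _ := hfin
    _ = _ := by ring

end Pool.Agent.SBF
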