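import Pool.Agent.Lib.MP_a7b2aa_an.SBF.Stmts65
import Pool.Agent.Lib.MP_a7b2aa_an.SBT.Final30
import Pool.Agent.Lib.MP_a7b2aa_an.SBT.Op38

/-!
SBF, module FINALF (helper65): from the discrete torus to the torus.
-/

set_option autoImplicit false

namespace Pool.Agent.SBF

open Finset MeasureTheory Pool.Agent.SB3 Pool.Agent.SBT Pool.Agent.SBT.D76

/-- the point `v + 2 π u / N` of the translated grid -/
noncomputable def gp (m : ℕ) (v : Fin 3 → ℝ) (u : Tor (Fin 3) (2 ^ (2 * m + 3))) : Fin 3 → ℝ :=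
  fun j => v j + 2 * Real.pi * ((u j).val : ℕ) / (2 ^ (2 * m + 3) : ℕ)

/-- the `ℓ²` norm of the coefficients -/
noncomputable def cn (c : (Fin 3 → ℤ) → ℂ) (l : Fin 3 → ℕ) : ℝ :=
  Real.sqrt (∑ k ∈ blk l, ‖c k‖ ^ 2)

lemma norm_cv (v : Fin 3 → ℝ) (w : ℂ) (c : (Fin 3 → ℤ) → ℂ) (k : Fin 3 → ℤ) :
    ‖cv30 v w c k‖ = ‖w‖ * ‖c k‖ := by
  unfold cv30
  rw [norm_mul, norm_mul, ← Complex.ofReal_sum, mul_comm Complex.I,
    Complex.norm_exp_ofReal_mul_I, mul_one]

lemma blockPoly_gp (m : ℕ) (c : (Fin 3 → ℤ) → ℂ) (l : Fin 3 → ℕ) (v : Fin 3 → ℝ)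
    (u : Tor (Fin 3) (2 ^ (2 * m + 3))) :
    ‖blockPoly c l (gp m v u)‖ ≤
      |PT (blk l) (cv30 v 1 c) u| + |PT (blk l) (cv30 v (-Complex.I) c) u| := by
  unfold gp
  rw [← blockPoly_grid30, ← blockPoly_grid30]
  refine (Complex.norm_le_abs_re_add_abs_im _).trans (le_of_eq ?_)
  simp

/-- sum of the squares of a block on the grid -/
lemma par_blk (hpar : StParC) (m : ℕ) (l : Fin 3 → ℕ) (hl : l ∈ Finset.Nat.antidiagonalTuple 3 m)
    (c : (Fin 3 → ℤ) → ℂ) (v : Fin 3 → ℝ) :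
    ∑ u, ‖blockPoly c l (gp m v u)‖ ^ 2 = (2 ^ (2 * m + 3)) ^ 3 * ∑ k ∈ blk l, ‖c k‖ ^ 2 := by
  have h1 := hpar m (blk l) (cv30 v 1 c) (fun k hk j =>
    lt_of_lt_of_le (mem_blk_38 hk j).2 (pow_le_pow_right₀ (by norm_num)
      (by have := anti_le_38 hl j; omega)))
  have h2 : ∑ k ∈ blk l, ‖cv30 v 1 c k‖ ^ 2 = ∑ k ∈ blk l, ‖c k‖ ^ 2 := by
    refine sum_congr rfl fun k _ => ?_
    rw [norm_cv]
    simp
  rw [h2] at h1
  rw [← h1]
  refine sum_congr rfl fun u _ => ?_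
  congr 2
  have e1 := blockPoly_grid30 (N := 2 ^ (2 * m + 3)) c l v 1 u
  have e2 := blockPoly_grid30 (N := 2 ^ (2 * m + 3)) c l v (-Complex.I) u
  have e3 : blockPoly c l (gp m v u) = ∑ k ∈ blk l, cv30 v 1 c k * ch k u := by
    apply Complex.ext
    · unfold PT at e1
      rw [one_mul] at e1
      exact e1
    · unfold PT at e2
      have e4 : (-Complex.I * blockPoly c l (gp m v u)).re = (blockPoly c l (gp m v u)).im := by
        simp
      have e5 : (∑ k ∈ blk l, cv30 v (-Complex.I) c k * ch k u) =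
          -Complex.I * ∑ k ∈ blk l, cv30 v 1 c k * ch k u := by
        rw [mul_sum]
        refine sum_congr rfl fun k _ => ?_
        unfold cv30
        ring
      have e6 : (-Complex.I * ∑ k ∈ blk l, cv30 v 1 c k * ch k u).re =
          (∑ k ∈ blk l, cv30 v 1 c k * ch k u).im := by
        simp
      rw [← e4, ← e6, ← e5]
      exact e2
  exact e3

lemma sum_norm_le (hpar : StParC) (m : ℕ) (l : Fin 3 → ℕ)
    (hl : l ∈ Finset.Nat.antidiagonalTuple 3 m) (c : (Fin 3 → ℤ) → ℂ) (v : Fin 3 → ℝ) :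
    ∑ u, ‖blockPoly c l (gp m v u)‖ ≤ (2 ^ (2 * m + 3)) ^ 3 * cn c l := by
  have h1 := sq_sum_le_card_mul_sum_sq (s := (univ : Finset (Tor (Fin 3) (2 ^ (2 * m + 3)))))
    (f := fun u => ‖blockPoly c l (gp m v u)‖)
  rw [par_blk hpar m l hl c v, card_univ, card_tor] at h1
  have h2 : ((2 ^ (2 * m + 3) : ℝ) ^ 3) * ((2 ^ (2 * m + 3)) ^ 3 * ∑ k ∈ blk l, ‖c k‖ ^ 2) =
      ((2 ^ (2 * m + 3)) ^ 3 * cn c l) ^ 2 := by
    unfold cn
    rw [mul_pow, Real.sq_sqrt (Finset.sum_nonneg (fun _ _ => by positivity))]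
    ring
  rw [h2] at h1
  have h3 : 0 ≤ (2 ^ (2 * m + 3) : ℝ) ^ 3 * cn c l :=
    mul_nonneg (by positivity) (Real.sqrt_nonneg _)
  exact (le_abs_self _).trans (abs_le_of_sq_le_sq h1 h3)

lemma n2_le (hpar : StParC) (m : ℕ) (l : Fin 3 → ℕ)
    (hl : l ∈ Finset.Nat.antidiagonalTuple 3 m) (c : (Fin 3 → ℤ) → ℂ) (v : Fin 3 → ℝ) (w : ℂ)
    (hw : ‖w‖ = 1) :
    n2 (PT (N := 2 ^ (2 * m + 3)) (blk l) (cv30 v w c)) ≤
      cn c l * Real.sqrt ((2 ^ (2 * m + 3)) ^ 3) := by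
  unfold n2 cn
  rw [← Real.sqrt_mul (Finset.sum_nonneg (fun _ _ => by positivity)),
    mul_comm (∑ k ∈ blk l, ‖c k‖ ^ 2), ← par_blk hpar m l hl c v]
  apply Real.sqrt_le_sqrt
  refine sum_le_sum fun u _ => ?_
  rw [← blockPoly_grid30, ← sq_abs]
  refine pow_le_pow_left₀ (abs_nonneg _) ?_ 2
  refine (Complex.abs_re_le_norm _).trans ?_
  rw [norm_mul, hw, one_mul]
  exact le_refl _

/-- averaging over the translations -/
lemma avg_set (hA : StAvg) (m : ℕ) (c : (Fin 3 → ℤ) → ℂ) (A : Finset (Fin 3 → ℕ)) :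
    ∃ v : Fin 3 → ℝ, (∑ l ∈ A, norm1 (blockPoly c l)) * (2 ^ (2 * m + 3)) ^ 3 ≤
      ∑ l ∈ A, ∑ u, ‖blockPoly c l (gp m v u)‖ := by
  set N : ℕ := 2 ^ (2 * m + 3) with hN
  have hN1 : 1 ≤ N := Nat.one_le_two_pow
  have : NeZero N := ⟨by omega⟩
  set φ : (Fin 3 → ℝ) → ℝ := fun x => ∑ l ∈ A, ‖blockPoly c l x‖ with hφ
  have hφc : Continuous φ := continuous_finsetSum _ fun l _ => (blockPoly_cont30 c l).norm
  obtain ⟨v, hv⟩ := hA N φ hN1 hφc (fun x j => by simp only [hφ, blockPoly_per30])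
  have hnorm : ∑ l ∈ A, norm1 (blockPoly c l) = (1 / (2 * Real.pi)) ^ 3 *
      (∫ x in Set.pi Set.univ (fun _ : Fin 3 => Set.Icc (0 : ℝ) (2 * Real.pi)), φ x) := by
    simp only [hφ, norm1]
    rw [integral_finsetSum, mul_sum]
    intro l _
    exact (blockPoly_cont30 c l).norm.continuousOn.integrableOn_compact
      (isCompact_univ_pi fun _ => isCompact_Icc)
  rw [← hnorm] at hv
  have hre : ∑ g : Fin 3 → Fin N, φ (fun j => v j + 2 * Real.pi * (g j : ℕ) / N) =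
      ∑ u : Fin 3 → ZMod N, φ (fun j => v j + 2 * Real.pi * ((u j).val : ℕ) / N) := by
    symm
    refine Fintype.sum_bijective (fun u : Fin 3 → ZMod N => fun j =>
      (⟨(u j).val, ZMod.val_lt _⟩ : Fin N)) ?_ _ _ (fun u => rfl)
    rw [Fintype.bijective_iff_injective_and_card]
    refine ⟨fun u u' h => ?_, by simp⟩
    funext j
    have := congrFun h j
    simp only [Fin.mk.injEq] at this
    exact ZMod.val_injective N this
  rw [hre] at hv
  refine ⟨v, ?_⟩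
  have hNc : ((2 : ℝ) ^ (2 * m + 3)) ^ 3 = (N : ℝ) ^ 3 := by rw [hN]; push_cast; ring
  rw [hNc, Finset.sum_comm]
  exact hv

/-- the `L¹` norm is at most the `ℓ²` norm of the coefficients -/
lemma norm1_le (hA : StAvg) (hpar : StParC) (m : ℕ) (l : Fin 3 → ℕ)
    (hl : l ∈ Finset.Nat.antidiagonalTuple 3 m) (c : (Fin 3 → ℤ) → ℂ) :
    norm1 (blockPoly c l) ≤ cn c l := by
  obtain ⟨v, hv⟩ := avg_set hA m c {l}
  rw [sum_singleton, sum_singleton] at hv
  have h1 := hv.trans (sum_norm_le hpar m l hl c v)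
  have hN : (0 : ℝ) < (2 ^ (2 * m + 3)) ^ 3 := by positivity
  rw [mul_comm] at h1
  exact le_of_mul_le_mul_left h1 hN

lemma Fm_le (m : ℕ) (c : (Fin 3 → ℤ) → ℂ) (v : Fin 3 → ℝ) (w : ℂ) (hw : ‖w‖ = 1)
    (u : Tor (Fin 3) (2 ^ (2 * m + 3))) :
    |Fm m (cv30 v w c) u| ≤
      ⨆ x : Fin 3 → ℝ, ‖∑ l ∈ Finset.Nat.antidiagonalTuple 3 m, blockPoly c l x‖ := by
  set A := Finset.Nat.antidiagonalTuple 3 m with hAdef
  set f : (Fin 3 → ℝ) → ℂ := fun x => ∑ l ∈ A, blockPoly c l x with hf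
  have hbd : BddAbove (Set.range fun x : Fin 3 → ℝ => ‖f x‖) := by
    refine ⟨∑ l ∈ A, ∑ k ∈ blk l, ‖c k‖, ?_⟩
    rintro _ ⟨x, rfl⟩
    refine (norm_sum_le _ _).trans (sum_le_sum fun l _ => ?_)
    unfold blockPoly
    refine (norm_sum_le _ _).trans (sum_le_sum fun k _ => ?_)
    rw [norm_mul, ← Complex.ofReal_sum, mul_comm Complex.I, Complex.norm_exp_ofReal_mul_I, mul_one]
  have hfS : ∀ x, ‖f x‖ ≤ ⨆ x : Fin 3 → ℝ, ‖f x‖ := fun x => le_ciSup hbd x
  unfold Fm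
  have h1 : ∑ l ∈ Finset.Nat.antidiagonalTuple 3 m, PT (blk l) (cv30 v w c) u =
      (w * f (gp m v u)).re := by
    simp only [hf]
    rw [mul_sum, Complex.re_sum]
    exact sum_congr rfl fun l _ => (blockPoly_grid30 _ _ _ _ _).symm
  rw [h1]
  refine (Complex.abs_re_le_norm _).trans ?_
  rw [norm_mul, hw, one_mul]
  exact hfS _

lemma S1_abs (m : ℕ) (c : (Fin 3 → ℤ) → ℂ) (l : Fin 3 → ℕ) (v : Fin 3 → ℝ) :
    ∑ u, ‖blockPoly c l (gp m v u)‖ ≤
      S1 (PT (N := 2 ^ (2 * m + 3)) (blk l) (cv30 v 1 c)) +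
      S1 (PT (N := 2 ^ (2 * m + 3)) (blk l) (cv30 v (-Complex.I) c)) := by
  unfold S1
  rw [← sum_add_distrib]
  exact sum_le_sum fun u _ => blockPoly_gp m c l v u

lemma cnt_eq (m : ℕ) (P : (Fin 3 → ℕ) → Prop) [DecidablePred P] :
    cnt m P = (((Finset.Nat.antidiagonalTuple 3 m).filter P).card : ℝ) := by
  unfold cnt
  congr!

open Classical in
theorem finalF_65 (hD : StDiscF) (hAb : StAbsorb) (hA : StAvg) (hpar : StParC) (hpr : StPar) :
    StFinalF := by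
  intro K hK
  obtain ⟨C, hC, hD⟩ := hD K hK
  have hK0 : 0 < K := by linarith
  set C1 : ℝ := 8000 * K * C + 4 with hC1
  have hC1p : 0 < C1 := by positivity
  refine ⟨1 / (2 * C1), by positivity, fun m c w hm hw hflat => ?_⟩
  set A := Finset.Nat.antidiagonalTuple 3 m with hAdef
  set S : ℝ := ⨆ x : Fin 3 → ℝ, ‖∑ l ∈ A, blockPoly c l x‖ with hS
  set T : (Fin 3 → ℕ) → ℝ := fun l => norm1 (blockPoly c l) with hT
  set N : ℝ := (2 ^ (2 * m + 3)) ^ 3 with hN
  have hN0 : 0 < N := by positivity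
  have hI : ‖(-Complex.I)‖ = 1 := by simp
  have h11 : ‖(1 : ℂ)‖ = 1 := by simp
  have hS0 : 0 ≤ S := (abs_nonneg _).trans (Fm_le m c 0 1 h11 0)
  have hm1 : (1 : ℝ) ≤ m := by exact_mod_cast hm
  set A0 : ℝ := C1 * (Real.sqrt (2 * m) * S) with hA0
  have hA00 : 0 ≤ A0 := by positivity
  have hab := hAb m T A0 w hw hA00 ?_
  · have h5 : ((2 * m : ℕ) : ℝ) ^ ((1 : ℝ) / 2) = Real.sqrt (2 * m) := by
      rw [Real.sqrt_eq_rpow]
      push_cast
      rfl
    rw [h5]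
    calc 1 / (2 * C1) * (w * cnt m (fun l => w ≤ norm1 (blockPoly c l)))
        ≤ 1 / (2 * C1) * (2 * A0) := mul_le_mul_of_nonneg_left hab (by positivity)
      _ = Real.sqrt (2 * m) * S := by
          rw [hA0]
          field_simp
  intro w' hww
  have hw' : 0 < w' := lt_of_lt_of_le hw hww
  -- the good interior blocks and the boundary blocks
  set G := A.filter (fun l => (∀ j, 1 ≤ l j) ∧ w' ≤ T l ∧
    ∀ l' ∈ A, T l' ≤ 2000 * w' * (36 / 25) ^ dd l l') with hG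
  set Bd := A.filter (fun l => ¬ (∀ j, 1 ≤ l j) ∧ w' ≤ T l) with hBd
  have hcard : cnt m (fun l => w' ≤ T l ∧
      ∀ l' ∈ A, T l' ≤ 2000 * w' * (36 / 25) ^ dd l l') ≤ (G.card : ℝ) + Bd.card := by
    rw [cnt_eq]
    have : A.filter (fun l => w' ≤ T l ∧
        ∀ l' ∈ A, T l' ≤ 2000 * w' * (36 / 25) ^ dd l l') ⊆ G ∪ Bd := by
      intro l hl
      rw [mem_filter] at hl
      rw [mem_union, hG, hBd, mem_filter, mem_filter]
      by_cases h : ∀ j, 1 ≤ l j
      · exact Or.inl ⟨hl.1, h, hl.2.1, hl.2.2⟩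
      · exact Or.inr ⟨hl.1, h, hl.2.1⟩
    have h2 := (card_le_card this).trans (card_union_le _ _)
    have h3 : ((A.filter (fun l => w' ≤ T l ∧
        ∀ l' ∈ A, T l' ≤ 2000 * w' * (36 / 25) ^ dd l l')).card : ℝ) ≤ G.card + Bd.card := by
      exact_mod_cast h2
    exact h3
  -- boundary
  have hbd : w' * (Bd.card : ℝ) ≤ 4 * (Real.sqrt (2 * m) * S) := by
    obtain ⟨v, hv⟩ := avg_set hA m c Bd
    have h1 : w' * (Bd.card : ℝ) ≤ ∑ l ∈ Bd, norm1 (blockPoly c l) := by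
      have := Finset.card_nsmul_le_sum Bd (fun l => norm1 (blockPoly c l)) w'
        (fun l hl => (mem_filter.mp hl).2.2)
      rw [nsmul_eq_mul] at this
      linarith
    have hsub : Bd ⊆ A.filter (fun l => ¬ ∀ j, 1 ≤ l j) := by
      intro l hl
      rw [hBd, mem_filter] at hl
      rw [mem_filter]
      exact ⟨hl.1, hl.2.1⟩
    have h2 : ∀ ω : ℂ, ‖ω‖ = 1 → ∑ l ∈ Bd,
        S1 (PT (N := 2 ^ (2 * m + 3)) (blk l) (cv30 v ω c)) ≤
          Real.sqrt (3 * (m + 1)) * (S * N) := by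
      intro ω hω
      refine le_trans ?_ (boundary hpr m (cv30 v ω c) S (Fm_le m c v ω hω) hS0)
      refine Finset.sum_le_sum_of_subset_of_nonneg ?_ (fun l _ _ => TT_nonneg _ _ _)
      convert hsub using 2
    have h3 : (∑ l ∈ Bd, norm1 (blockPoly c l)) * N ≤
        2 * Real.sqrt (3 * (m + 1)) * S * N := by
      refine hv.trans ((Finset.sum_le_sum (fun l _ => S1_abs m c l v)).trans ?_)
      rw [sum_add_distrib]
      have e1 := h2 1 h11
      have e2 := h2 (-Complex.I) hI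
      linarith
    have h4 := le_of_mul_le_mul_right h3 hN0
    have e1 : Real.sqrt (3 * (m + 1)) ≤ 2 * Real.sqrt (2 * m) := by
      have : (2 : ℝ) * Real.sqrt (2 * m) = Real.sqrt (4 * (2 * m)) := by
        rw [Real.sqrt_mul (by norm_num) (2 * (m : ℝ)), show (4 : ℝ) = 2 ^ 2 by norm_num,
          Real.sqrt_sq (by norm_num)]
      rw [this]
      exact Real.sqrt_le_sqrt (by linarith)
    have e2 := mul_le_mul_of_nonneg_right e1 hS0
    linarith
  -- interior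
  have hint : w' * (G.card : ℝ) ≤ 8000 * K * C * (Real.sqrt (2 * m) * S) := by
    obtain ⟨v, hv⟩ := avg_set hA m c G
    set Sl : (Fin 3 → ℕ) → ℝ := fun l => ∑ u, ‖blockPoly c l (gp m v u)‖ with hSl
    set G1 := G.filter (fun l => w' / 2 * N ≤ Sl l) with hG1
    have hmem : ∀ l ∈ G, l ∈ A ∧ (∀ j, 1 ≤ l j) ∧ w' ≤ T l ∧
        ∀ l' ∈ A, T l' ≤ 2000 * w' * (36 / 25) ^ dd l l' := fun l hl => by
      rw [hG, mem_filter] at hl
      exact hl
    have hSlle : ∀ l ∈ G, Sl l ≤ 2000 * K * w' * N := by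
      intro l hl
      obtain ⟨h1, _, h3, h4⟩ := hmem l hl
      have h5 := sum_norm_le hpar m l h1 c v
      have h6 : cn c l ≤ K * max w (T l) := hflat l h1
      have h7 : max w (T l) ≤ 2000 * w' := by
        have h8 := h4 l h1
        have h9 : dd l l = 0 := by simp [dd]
        rw [h9, pow_zero, mul_one] at h8
        exact max_le (by linarith) h8
      calc Sl l ≤ N * cn c l := h5
        _ ≤ N * (K * (2000 * w')) :=
          mul_le_mul_of_nonneg_left (h6.trans (mul_le_mul_of_nonneg_left h7 hK0.le)) hN0.le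
        _ = _ := by ring
    have hlow : w' * (G.card : ℝ) * N ≤ ∑ l ∈ G, Sl l := by
      have h1 := Finset.card_nsmul_le_sum G (fun l => norm1 (blockPoly c l)) w'
        (fun l hl => (hmem l hl).2.2.1)
      rw [nsmul_eq_mul] at h1
      have h2 := mul_le_mul_of_nonneg_right h1 hN0.le
      linarith [hv]
    have hup : ∑ l ∈ G, Sl l ≤ w' / 2 * N * (G.card : ℝ) + 2000 * K * w' * N * (G1.card : ℝ) := by
      rw [← Finset.sum_filter_add_sum_filter_not G (fun l => w' / 2 * N ≤ Sl l)]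
      have h1 : ∑ l ∈ G1, Sl l ≤ (G1.card : ℝ) * (2000 * K * w' * N) := by
        have := Finset.sum_le_card_nsmul G1 Sl (2000 * K * w' * N)
          (fun l hl => hSlle l (mem_filter.mp hl).1)
        rwa [nsmul_eq_mul] at this
      have h2 : ∑ l ∈ G.filter (fun l => ¬ w' / 2 * N ≤ Sl l), Sl l ≤
          (G.card : ℝ) * (w' / 2 * N) := by
        have h3 := Finset.sum_le_card_nsmul (G.filter (fun l => ¬ w' / 2 * N ≤ Sl l)) Sl
          (w' / 2 * N) (fun l hl => (not_le.mp (mem_filter.mp hl).2).le)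
        rw [nsmul_eq_mul] at h3
        refine h3.trans (mul_le_mul_of_nonneg_right ?_ (by positivity))
        exact_mod_cast card_le_card (filter_subset _ _)
      linarith
    have hG1c : w' * (G1.card : ℝ) ≤ 2 * (C * Real.sqrt (2 * m) * S) := by
      set P : ℂ → (Fin 3 → ℕ) → Prop := fun ω l => (∀ j, 1 ≤ l j) ∧
        w' / 4 * N ≤ S1 (PT (N := 2 ^ (2 * m + 3)) (blk l) (cv30 v ω c)) ∧
        ∀ l' ∈ A, T l' ≤ 2000 * w' * (36 / 25) ^ dd l l' with hP
      have hd : ∀ ω : ℂ, ‖ω‖ = 1 → w' * cnt m (P ω) ≤ C * Real.sqrt (2 * m) * S := by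
        intro ω hω
        refine hD m (cv30 v ω c) T S w' hm hw' (Fm_le m c v ω hω) ?_
        intro l hl
        refine (n2_le hpar m l hl c v ω hω).trans ?_
        refine mul_le_mul_of_nonneg_right ?_ (Real.sqrt_nonneg _)
        refine (hflat l hl).trans (mul_le_mul_of_nonneg_left ?_ hK0.le)
        exact max_le_max hww le_rfl
      have hsub : G1 ⊆ A.filter (P 1) ∪ A.filter (P (-Complex.I)) := by
        intro l hl
        rw [hG1, mem_filter] at hl
        obtain ⟨h1, h2, _, h4⟩ := hmem l hl.1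
        have h5 := hl.2.trans (S1_abs m c l v)
        rw [mem_union, mem_filter, mem_filter]
        by_cases h6 : w' / 4 * N ≤ S1 (PT (N := 2 ^ (2 * m + 3)) (blk l) (cv30 v 1 c))
        · exact Or.inl ⟨h1, h2, h6, h4⟩
        · refine Or.inr ⟨h1, h2, ?_, h4⟩
          have h7 := not_le.mp h6
          linarith
      have hc : (G1.card : ℝ) ≤ cnt m (P 1) + cnt m (P (-Complex.I)) := by
        rw [cnt_eq, cnt_eq]
        have h2 := (card_le_card hsub).trans (card_union_le _ _)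
        have h3 : (G1.card : ℝ) ≤ ((A.filter (P 1)).card : ℝ) +
            ((A.filter (P (-Complex.I))).card : ℝ) := by exact_mod_cast h2
        exact h3
      have e1 := hd 1 h11
      have e2 := hd (-Complex.I) hI
      have e3 := mul_le_mul_of_nonneg_left hc hw'.le
      linarith
    have h1 := hlow.trans hup
    have h2 : w' * (G.card : ℝ) * N ≤ (4000 * K * (w' * (G1.card : ℝ))) * N := by linarith
    have h3 := le_of_mul_le_mul_right h2 hN0
    have h4 := mul_le_mul_of_nonneg_left hG1c (show 0 ≤ 4000 * K by positivity)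
    calc w' * (G.card : ℝ) ≤ 4000 * K * (w' * (G1.card : ℝ)) := h3
      _ ≤ 4000 * K * (2 * (C * Real.sqrt (2 * m) * S)) := h4
      _ = _ := by ring
  calc w' * cnt m (fun l => w' ≤ T l ∧ ∀ l' ∈ A, T l' ≤ 2000 * w' * (36 / 25) ^ dd l l')
      ≤ w' * ((G.card : ℝ) + Bd.card) := mul_le_mul_of_nonneg_left hcard hw'.le
    _ = w' * (G.card : ℝ) + w' * (Bd.card : ℝ) := by ring
    _ ≤ 8000 * K * C * (Real.sqrt (2 * m) * S) + 4 * (Real.sqrt (2 * m) * S) :=
        add_le_add hint hbd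
    _ = A0 := by rw [hA0, hC1]; ring

end Pool.Agent.SBF
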