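import Pool.Agent.Lib.MP_a7b2aa_an.SBF.Stmts65
import Pool.Agent.Lib.MP_a7b2aa_an.SBT.Lev4_38
import Pool.Agent.Lib.MP_a7b2aa_an.SBT.Lev3_36

/-!
SBF, module KEY (helper38): one triple; Paley-Zygmund for `|cf|` and the Markov inequality for the
leaks.
-/

set_option autoImplicit false

namespace Pool.Agent.SBF

open Finset Pool.Agent.SB3 Pool.Agent.SBT

/-- Jensen's inequality for one average -/
theorem Ey_sq_38 {L : ℕ} (i : ℕ) (φ : Y L → ℝ) (x : Y L) :
    (Ey i φ x) ^ 2 ≤ Ey i (fun a => (φ a) ^ 2) x := by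
  set m := Ey i φ x with hm
  have h1 : 0 ≤ Ey i (fun a => (φ a - m) ^ 2) x := Ey_nonneg36 i _ (fun a => sq_nonneg _) x
  have h2 : (fun a => (φ a - m) ^ 2) = fun a => (φ a ^ 2 - (2 * m) * φ a) + m ^ 2 := by
    funext a
    ring
  rw [h2, Ey_add33, Ey_sub33, Ey_cmul33, Ey_const33, ← hm] at h1
  linarith [h1, sq m]

/-- Jensen's inequality for the coefficient -/
theorem cf_sq_38 {L : ℕ} (H : Y L → Y L → Y L → ℝ) {i p q : ℕ} (hi : i < L) (hp : p < L)
    (hq : q < L) :
    ∑ x, ∑ y, ∑ z, (cf H i p q x y z) ^ 2 ≤ ∑ x, ∑ y, ∑ z, (d3 H i p q x y z) ^ 2 := by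
  rw [← Ey3_sum36 (fun x y z => (d3 H i p q x y z) ^ 2) i p q]
  apply Finset.sum_le_sum
  intro x _
  apply Finset.sum_le_sum
  intro y _
  apply Finset.sum_le_sum
  intro z _
  rw [cf_eq33 H hi hp hq]
  refine (Ey_sq_38 i _ x).trans (Ey_mono33 i _ _ (fun a => ?_) x)
  refine (Ey_sq_38 p _ y).trans (Ey_mono33 p _ _ (fun b => ?_) y)
  exact Ey_sq_38 q _ z

/-- KEY -/
theorem key_38 : StKey := by
  intro L ι _ H p q δ w κ hpq hδ hw hκ hA hB1 hB2 hd
  classical
  have hV := fun u => lev2_36 L (H u) p q hpq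
  choose V hV1 hV2 using hV
  have h3 := fun u => lev3_36 L (H u) (L - 1 - p - q) p q (by omega) (by omega) (by omega)
  have h8 : (0 : ℝ) < 8 ^ L := by positivity
  set N8 : ℝ := Fintype.card ι * 8 ^ L with hN8
  -- first moment
  have m1 : 3 * w * N8 ≤ ∑ u, ∑ x, ∑ y, ∑ z, |cf (H u) (L - 1 - p - q) p q x y z| := by
    have e1 : ∑ u, 8 ^ L * (A3 (H u) (L - 1 - p - q) p q - B3 (H u) (L - 1 - p - q) p q) ≤
        ∑ u, ∑ x, ∑ y, ∑ z, |cf (H u) (L - 1 - p - q) p q x y z| :=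
      Finset.sum_le_sum (fun u _ => h3 u)
    rw [← Finset.mul_sum, Finset.sum_sub_distrib] at e1
    refine le_trans ?_ e1
    have e2 : 3 * w * (Fintype.card ι : ℝ) ≤
        ∑ u, A3 (H u) (L - 1 - p - q) p q - ∑ u, B3 (H u) (L - 1 - p - q) p q := by linarith
    calc 3 * w * N8 = 8 ^ L * (3 * w * (Fintype.card ι : ℝ)) := by rw [hN8]; ring
      _ ≤ _ := mul_le_mul_of_nonneg_left e2 h8.le
  -- second moment
  have m2 : ∑ u, ∑ x, ∑ y, ∑ z, (cf (H u) (L - 1 - p - q) p q x y z) ^ 2 ≤ κ * w ^ 2 * N8 := by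
    refine le_trans (Finset.sum_le_sum (fun u _ => ?_)) hd
    exact cf_sq_38 (H u) (by omega) (by omega) (by omega)
  -- leaks
  have m3 : ∑ u, ∑ x, ∑ y, ∑ z, V u x y z ≤ δ * w / κ * N8 := by
    have e1 : ∑ u, ∑ x, ∑ y, ∑ z, V u x y z ≤ ∑ u, 8 ^ L * B3 (H u) (L - 1 - p - q) p q :=
      Finset.sum_le_sum (fun u _ => hV2 u)
    refine e1.trans ?_
    rw [← Finset.mul_sum]
    calc 8 ^ L * ∑ u, B3 (H u) (L - 1 - p - q) p q ≤
          8 ^ L * (δ * w / κ * (Fintype.card ι : ℝ)) := mul_le_mul_of_nonneg_left hB2 h8.le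
      _ = _ := by rw [hN8]; ring
  -- pointwise
  have pt : ∀ u x y z, |cf (H u) (L - 1 - p - q) p q x y z| ≤
      w + κ * w / 4 * (if Gd (H u) δ w p q x y z then (1 : ℝ) else 0) +
        κ / (4 * δ) * V u x y z + (cf (H u) (L - 1 - p - q) p q x y z) ^ 2 / (κ * w) := by
    intro u x y z
    have hVn : 0 ≤ V u x y z :=
      (Lk_nonneg_38 (H u) p q x y z).trans (hV1 u x y z x y z rfl rfl rfl)
    set c := |cf (H u) (L - 1 - p - q) p q x y z| with hc
    have hc2 : (cf (H u) (L - 1 - p - q) p q x y z) ^ 2 = c ^ 2 := by rw [hc, sq_abs]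
    rw [hc2]
    have hg0 : (0 : ℝ) ≤ (if Gd (H u) δ w p q x y z then (1 : ℝ) else 0) := by
      split_ifs <;> norm_num
    have hv0 : 0 ≤ κ / (4 * δ) * V u x y z := by positivity
    have hs0 : 0 ≤ c ^ 2 / (κ * w) := by positivity
    by_cases hcw : c < w
    · have : 0 ≤ κ * w / 4 * (if Gd (H u) δ w p q x y z then (1 : ℝ) else 0) :=
        mul_nonneg (by positivity) hg0
      linarith
    · push Not at hcw
      -- AM-GM
      have am : c ≤ κ * w / 4 + c ^ 2 / (κ * w) := by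
        have hkw : 0 < κ * w := by positivity
        have e1 : 0 ≤ (κ * w / 2 - c) ^ 2 / (κ * w) := by positivity
        have e2 : (κ * w / 2 - c) ^ 2 / (κ * w) = κ * w / 4 - c + c ^ 2 / (κ * w) := by
          field_simp
          ring
        linarith
      by_cases hVw : V u x y z ≤ δ * w
      · have hG : Gd (H u) δ w p q x y z :=
          ⟨hcw, fun x' y' z' hx hy hz => (hV1 u x y z x' y' z' hx hy hz).trans hVw⟩
        rw [if_pos hG]
        linarith
      · push Not at hVw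
        have e3 : κ * w / 4 ≤ κ / (4 * δ) * V u x y z := by
          have e4 : κ / (4 * δ) * (δ * w) = κ * w / 4 := by
            field_simp
          rw [← e4]
          exact mul_le_mul_of_nonneg_left hVw.le (by positivity)
        have : 0 ≤ κ * w / 4 * (if Gd (H u) δ w p q x y z then (1 : ℝ) else 0) :=
          mul_nonneg (by positivity) hg0
        linarith
  -- summation
  set G : ℝ := ∑ u, ∑ x : Y L, ∑ y : Y L, ∑ z : Y L,
      (if Gd (H u) δ w p q x y z then (1 : ℝ) else 0) with hG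
  have hcard : (Fintype.card (Y L) : ℝ) = 2 ^ L := by
    simp [Y]
  have hsum : ∑ u, ∑ x, ∑ y, ∑ z, |cf (H u) (L - 1 - p - q) p q x y z| ≤
      w * N8 + κ * w / 4 * G + κ / (4 * δ) * (∑ u, ∑ x, ∑ y, ∑ z, V u x y z) +
        (∑ u, ∑ x, ∑ y, ∑ z, (cf (H u) (L - 1 - p - q) p q x y z) ^ 2) / (κ * w) := by
    calc _ ≤ ∑ u, ∑ x : Y L, ∑ y : Y L, ∑ z : Y L,
          (w + κ * w / 4 * (if Gd (H u) δ w p q x y z then (1 : ℝ) else 0) +
          κ / (4 * δ) * V u x y z + (cf (H u) (L - 1 - p - q) p q x y z) ^ 2 / (κ * w)) := by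
          apply Finset.sum_le_sum; intro u _
          apply Finset.sum_le_sum; intro x _
          apply Finset.sum_le_sum; intro y _
          apply Finset.sum_le_sum; intro z _
          exact pt u x y z
      _ = _ := by
          simp only [Finset.sum_add_distrib, Finset.sum_const, Finset.card_univ, nsmul_eq_mul,
            ← Finset.mul_sum, ← Finset.sum_div, hcard]
          rw [hN8, ← hG]
          have e8 : (8 : ℝ) ^ L = 2 ^ L * (2 ^ L * 2 ^ L) := by
            rw [← mul_pow, ← mul_pow]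
            norm_num
          rw [e8]
          ring
  have f1 : κ / (4 * δ) * (∑ u, ∑ x, ∑ y, ∑ z, V u x y z) ≤ w * N8 / 4 := by
    calc _ ≤ κ / (4 * δ) * (δ * w / κ * N8) := mul_le_mul_of_nonneg_left m3 (by positivity)
      _ = _ := by field_simp
  have f2 : (∑ u, ∑ x, ∑ y, ∑ z, (cf (H u) (L - 1 - p - q) p q x y z) ^ 2) / (κ * w) ≤
      w * N8 := by
    rw [div_le_iff₀ (by positivity)]
    calc _ ≤ κ * w ^ 2 * N8 := m2
      _ = _ := by ring
  have hN0 : 0 ≤ N8 := by positivity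
  have hG0 : 0 ≤ G := by
    rw [hG]
    apply Finset.sum_nonneg; intro u _
    apply Finset.sum_nonneg; intro x _
    apply Finset.sum_nonneg; intro y _
    apply Finset.sum_nonneg; intro z _
    split_ifs <;> norm_num
  have f3 : 3 / 4 * (w * N8) ≤ κ * w / 4 * G := by linarith
  have f4 : w * (3 * N8) ≤ w * (κ * G) := by linarith
  have f5 : 3 * N8 ≤ κ * G := le_of_mul_le_mul_left f4 hw
  have f6 : N8 ≤ κ * G := by linarith
  convert f6 using 1

end Pool.Agent.SBF
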