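import Pool.Agent.Lib.MP_a7b2aa_an.SBF.Stmts65
import Pool.Agent.Lib.MP_a7b2aa_an.SBT.Op38

/-!
SBF (helper65): the modules NUMA and NUMB.
-/

set_option autoImplicit false

namespace Pool.Agent.SBF

open Finset Pool.Agent.SB3 Pool.Agent.SBT

lemma geo_65 (n : ℕ) (b : ℤ) :
    ∑ x ∈ range n, (18 / 25 : ℝ) ^ (((x : ℕ) : ℤ) - b).natAbs ≤ 8 := by
  rw [← Finset.sum_filter_add_sum_filter_not (range n) (fun x : ℕ => b ≤ (x : ℤ))]
  have hs : Summable (fun k : ℕ => (18 / 25 : ℝ) ^ k) :=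
    summable_geometric_of_lt_one (by norm_num) (by norm_num)
  have ht : ∑' k : ℕ, (18 / 25 : ℝ) ^ k ≤ 4 := by
    rw [tsum_geometric_of_lt_one (by norm_num) (by norm_num)]
    norm_num
  have half : ∀ (S : Finset ℕ), Set.InjOn (fun x : ℕ => (((x : ℕ) : ℤ) - b).natAbs) S →
      ∑ x ∈ S, (18 / 25 : ℝ) ^ (((x : ℕ) : ℤ) - b).natAbs ≤ 4 := by
    intro S hS
    rw [← Finset.sum_image (f := fun k : ℕ => (18 / 25 : ℝ) ^ k)
      (g := fun x : ℕ => (((x : ℕ) : ℤ) - b).natAbs) hS]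
    exact (hs.sum_le_tsum _ (fun _ _ => by positivity)).trans ht
  have h1 := half ((range n).filter (fun x : ℕ => b ≤ (x : ℤ))) (by
    intro x hx y hy hxy
    have hx' := (Finset.mem_filter.mp (Finset.mem_coe.mp hx)).2
    have hy' := (Finset.mem_filter.mp (Finset.mem_coe.mp hy)).2
    simp only at hxy
    omega)
  have h2 := half ((range n).filter (fun x : ℕ => ¬ b ≤ (x : ℤ))) (by
    intro x hx y hy hxy
    have hx' := (Finset.mem_filter.mp (Finset.mem_coe.mp hx)).2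
    have hy' := (Finset.mem_filter.mp (Finset.mem_coe.mp hy)).2
    simp only at hxy
    omega)
  linarith

lemma geo2_65 (m : ℕ) (b0 b1 : ℤ) : ∑ l ∈ Finset.Nat.antidiagonalTuple 3 m,
    ((18 / 25 : ℝ) ^ (((l 0 : ℕ) : ℤ) - b0).natAbs *
      (18 / 25 : ℝ) ^ (((l 1 : ℕ) : ℤ) - b1).natAbs) ≤ 64 := by
  have hinj : Set.InjOn (fun l : Fin 3 → ℕ => (l 0, l 1))
      (Finset.Nat.antidiagonalTuple 3 m : Set (Fin 3 → ℕ)) := by
    intro l hl k hk h
    have e1 := Finset.mem_coe.mp hl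
    have e2 := Finset.mem_coe.mp hk
    rw [Finset.Nat.mem_antidiagonalTuple, Fin.sum_univ_three] at e1 e2
    simp only [Prod.mk.injEq] at h
    funext j
    fin_cases j
    · exact h.1
    · exact h.2
    · show l 2 = k 2
      omega
  rw [← Finset.sum_image (f := fun y : ℕ × ℕ => (18 / 25 : ℝ) ^ (((y.1 : ℕ) : ℤ) - b0).natAbs *
    (18 / 25 : ℝ) ^ (((y.2 : ℕ) : ℤ) - b1).natAbs) (g := fun l : Fin 3 → ℕ => (l 0, l 1)) hinj]
  have hsub : (Finset.Nat.antidiagonalTuple 3 m).image (fun l : Fin 3 → ℕ => (l 0, l 1)) ⊆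
      range (m + 1) ×ˢ range (m + 1) := by
    intro y hy
    obtain ⟨l, hl, rfl⟩ := Finset.mem_image.mp hy
    have h := anti_le_38 hl
    rw [Finset.mem_product, Finset.mem_range, Finset.mem_range]
    exact ⟨Nat.lt_succ_of_le (h 0), Nat.lt_succ_of_le (h 1)⟩
  refine (Finset.sum_le_sum_of_subset_of_nonneg hsub (fun _ _ _ => by positivity)).trans ?_
  rw [Finset.sum_product]
  simp only
  rw [← Finset.sum_mul_sum]
  have g0 := geo_65 (m + 1) b0
  have g1 := geo_65 (m + 1) b1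
  calc _ ≤ (8 : ℝ) * 8 := mul_le_mul g0 g1 (Finset.sum_nonneg (fun _ _ => by positivity))
        (by norm_num)
    _ = 64 := by norm_num

lemma growth_65 (E D : ℕ) (h : D ≤ E) (D' : ℕ) (hD : D' ≤ D) :
    (1 / 2 : ℝ) ^ E * (36 / 25) ^ D' ≤ (18 / 25) ^ D := by
  calc (1 / 2 : ℝ) ^ E * (36 / 25) ^ D' ≤ (1 / 2 : ℝ) ^ D * (36 / 25) ^ D := by
        apply mul_le_mul (pow_le_pow_of_le_one (by norm_num) (by norm_num) h)
          (pow_le_pow_right₀ (by norm_num) hD) (by positivity) (by positivity)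
    _ = (18 / 25) ^ D := by
        rw [← mul_pow]
        norm_num

theorem numA_65 : StNumA := by
  refine ⟨64, by norm_num, ?_⟩
  intro m l hl
  refine le_trans ?_ (geo2_65 m (l 0) (l 1))
  refine Finset.sum_le_sum (fun l' hl' => ?_)
  rw [Finset.Nat.mem_antidiagonalTuple, Fin.sum_univ_three] at hl hl'
  rw [← pow_add]
  refine growth_65 _ _ ?_ _ ?_
  · omega
  · unfold dd
    omega

theorem numB_65 : StNumB := by
  refine ⟨512, by norm_num, ?_⟩
  intro β m T l hβ hl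
  rw [Finset.Nat.mem_antidiagonalTuple, Fin.sum_univ_three] at hl
  -- pointwise bound
  have hpt : ∀ l' ∈ Finset.Nat.antidiagonalTuple 3 m,
      ∀ t ∈ Fintype.piFinset (fun _ : Fin 3 => range T),
      (if t = 0 then (0 : ℝ) else 2 ^ (t 0 + t 1 + t 2) *
        (1 / 2 : ℝ) ^ ((2 * l 0 + 2 * β * t 0 - 2 * l' 0) + (2 * l 1 + 2 * β * t 1 - 2 * l' 1) +
          (2 * l 2 + 2 * β * t 2 - 2 * l' 2))) * (36 / 25) ^ dd l l' ≤
      (18 / 25 : ℝ) ^ (β / 2) * (((1 / 2 : ℝ) ^ t 0 * (1 / 2 : ℝ) ^ t 1 * (1 / 2 : ℝ) ^ t 2) *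
        ((18 / 25 : ℝ) ^ (((l' 0 : ℕ) : ℤ) - ((l 0 : ℤ) + β * t 0)).natAbs *
        (18 / 25 : ℝ) ^ (((l' 1 : ℕ) : ℤ) - ((l 1 : ℤ) + β * t 1)).natAbs)) := by
    intro l' hl' t _
    rw [Finset.Nat.mem_antidiagonalTuple, Fin.sum_univ_three] at hl'
    split_ifs with ht
    · rw [zero_mul]
      positivity
    · have hs : 1 ≤ t 0 + t 1 + t 2 := by
        by_contra hcon
        apply ht
        funext j
        fin_cases j
        · show t 0 = 0
          omega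
        · show t 1 = 0
          omega
        · show t 2 = 0
          omega
      set s := t 0 + t 1 + t 2 with hsdef
      set e := (((l' 0 : ℕ) : ℤ) - ((l 0 : ℤ) + β * t 0)).natAbs +
          (((l' 1 : ℕ) : ℤ) - ((l 1 : ℤ) + β * t 1)).natAbs with he
      have hE : β * s + e ≤ (2 * l 0 + 2 * β * t 0 - 2 * l' 0) +
          (2 * l 1 + 2 * β * t 1 - 2 * l' 1) + (2 * l 2 + 2 * β * t 2 - 2 * l' 2) ∧
          dd l l' ≤ β * s + e := by
        have e0 : 2 * β * t 0 = 2 * (β * t 0) := by ring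
        have e1 : 2 * β * t 1 = 2 * (β * t 1) := by ring
        have e2 : 2 * β * t 2 = 2 * (β * t 2) := by ring
        have e3 : β * s = β * t 0 + β * t 1 + β * t 2 := by rw [hsdef]; ring
        unfold dd
        rw [he, e0, e1, e2, e3]
        have c0 : (β : ℤ) * (t 0 : ℤ) = ((β * t 0 : ℕ) : ℤ) := by push_cast; ring
        have c1 : (β : ℤ) * (t 1 : ℤ) = ((β * t 1 : ℕ) : ℤ) := by push_cast; ring
        rw [c0, c1]
        generalize β * t 0 = u0
        generalize β * t 1 = u1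
        generalize β * t 2 = u2
        omega
      have hpow : 5 * s + β / 2 ≤ β * s := by
        obtain ⟨s', hs'⟩ : ∃ s', s = s' + 1 := ⟨s - 1, by omega⟩
        rw [hs']
        have h1 : β * (s' + 1) = β * s' + β := by ring
        rw [h1]
        have h2 : 5 * s' ≤ β * s' := Nat.mul_le_mul_right _ (by omega)
        omega
      have h4 : (4 : ℝ) ^ s * (18 / 25 : ℝ) ^ (5 * s) ≤ 1 := by
        rw [pow_mul, ← mul_pow]
        exact pow_le_one₀ (by norm_num) (by norm_num)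
      have h5 : (2 : ℝ) ^ s * (18 / 25 : ℝ) ^ (β * s) ≤
          (18 / 25 : ℝ) ^ (β / 2) * (1 / 2) ^ s := by
        calc (2 : ℝ) ^ s * (18 / 25 : ℝ) ^ (β * s) ≤
              (2 : ℝ) ^ s * (18 / 25 : ℝ) ^ (5 * s + β / 2) :=
              mul_le_mul_of_nonneg_left
                (pow_le_pow_of_le_one (by norm_num) (by norm_num) hpow) (by positivity)
          _ = ((4 : ℝ) ^ s * (18 / 25 : ℝ) ^ (5 * s)) * ((18 / 25 : ℝ) ^ (β / 2) *
              (1 / 2) ^ s) := by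
              have : (4 : ℝ) ^ s * (1 / 2) ^ s = 2 ^ s := by
                rw [← mul_pow]
                norm_num
              rw [← this, pow_add]
              ring
          _ ≤ 1 * ((18 / 25 : ℝ) ^ (β / 2) * (1 / 2) ^ s) :=
              mul_le_mul_of_nonneg_right h4 (by positivity)
          _ = _ := one_mul _
      have h6 := growth_65 _ _ hE.1 _ hE.2
      calc (2 : ℝ) ^ s * (1 / 2 : ℝ) ^ ((2 * l 0 + 2 * β * t 0 - 2 * l' 0) +
            (2 * l 1 + 2 * β * t 1 - 2 * l' 1) + (2 * l 2 + 2 * β * t 2 - 2 * l' 2)) *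
            (36 / 25) ^ dd l l'
          = (2 : ℝ) ^ s * ((1 / 2 : ℝ) ^ ((2 * l 0 + 2 * β * t 0 - 2 * l' 0) +
            (2 * l 1 + 2 * β * t 1 - 2 * l' 1) + (2 * l 2 + 2 * β * t 2 - 2 * l' 2)) *
            (36 / 25) ^ dd l l') := by ring
        _ ≤ (2 : ℝ) ^ s * (18 / 25 : ℝ) ^ (β * s + e) :=
            mul_le_mul_of_nonneg_left h6 (by positivity)
        _ = ((2 : ℝ) ^ s * (18 / 25 : ℝ) ^ (β * s)) * (18 / 25 : ℝ) ^ e := by
            rw [pow_add]
            ring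
        _ ≤ ((18 / 25 : ℝ) ^ (β / 2) * (1 / 2) ^ s) * (18 / 25 : ℝ) ^ e :=
            mul_le_mul_of_nonneg_right h5 (by positivity)
        _ = _ := by
            rw [he, hsdef]
            simp only [pow_add]
            ring
  -- sum over t
  have ht : ∑ t ∈ Fintype.piFinset (fun _ : Fin 3 => range T),
      ((1 / 2 : ℝ) ^ t 0 * (1 / 2 : ℝ) ^ t 1 * (1 / 2 : ℝ) ^ t 2) ≤ 8 := by
    have h1 := Finset.prod_univ_sum (fun _ : Fin 3 => range T)
      (fun (_ : Fin 3) (x : ℕ) => (1 / 2 : ℝ) ^ x)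
    have h2 : ∑ t ∈ Fintype.piFinset (fun _ : Fin 3 => range T),
        ((1 / 2 : ℝ) ^ t 0 * (1 / 2 : ℝ) ^ t 1 * (1 / 2 : ℝ) ^ t 2) =
        ∏ _j : Fin 3, ∑ x ∈ range T, (1 / 2 : ℝ) ^ x := by
      rw [h1]
      apply Finset.sum_congr rfl
      intro t _
      rw [Fin.prod_univ_three]
    rw [h2, Finset.prod_const, Finset.card_univ, Fintype.card_fin]
    have h3 := sum_geometric_two_le T
    calc (∑ x ∈ range T, (1 / 2 : ℝ) ^ x) ^ 3 ≤ 2 ^ 3 :=
          pow_le_pow_left₀ (Finset.sum_nonneg (fun _ _ => by positivity)) h3 3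
      _ = 8 := by norm_num
  rw [Finset.sum_comm]
  calc _ ≤ ∑ t ∈ Fintype.piFinset (fun _ : Fin 3 => range T),
        ∑ l' ∈ Finset.Nat.antidiagonalTuple 3 m,
        (18 / 25 : ℝ) ^ (β / 2) * (((1 / 2 : ℝ) ^ t 0 * (1 / 2 : ℝ) ^ t 1 * (1 / 2 : ℝ) ^ t 2) *
        ((18 / 25 : ℝ) ^ (((l' 0 : ℕ) : ℤ) - ((l 0 : ℤ) + β * t 0)).natAbs *
        (18 / 25 : ℝ) ^ (((l' 1 : ℕ) : ℤ) - ((l 1 : ℤ) + β * t 1)).natAbs)) := by
        apply Finset.sum_le_sum
        intro t ht'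
        apply Finset.sum_le_sum
        intro l' hl'
        exact hpt l' hl' t ht'
    _ ≤ ∑ t ∈ Fintype.piFinset (fun _ : Fin 3 => range T),
        (18 / 25 : ℝ) ^ (β / 2) * (((1 / 2 : ℝ) ^ t 0 * (1 / 2 : ℝ) ^ t 1 * (1 / 2 : ℝ) ^ t 2) *
        64) := by
        apply Finset.sum_le_sum
        intro t _
        rw [← Finset.mul_sum]
        apply mul_le_mul_of_nonneg_left _ (by positivity)
        rw [← Finset.mul_sum]
        exact mul_le_mul_of_nonneg_left (geo2_65 m _ _) (by positivity)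
    _ = (18 / 25 : ℝ) ^ (β / 2) * ((∑ t ∈ Fintype.piFinset (fun _ : Fin 3 => range T),
        ((1 / 2 : ℝ) ^ t 0 * (1 / 2 : ℝ) ^ t 1 * (1 / 2 : ℝ) ^ t 2)) * 64) := by
        rw [Finset.sum_mul, Finset.mul_sum]
    _ ≤ (18 / 25 : ℝ) ^ (β / 2) * (8 * 64) := by
        apply mul_le_mul_of_nonneg_left _ (by positivity)
        exact mul_le_mul_of_nonneg_right ht (by norm_num)
    _ = _ := by ring

end Pool.Agent.SBF
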