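import Pool.Agent.Lib.MP_a7b2aa_an.SBF.Stmts65
import Pool.Agent.Lib.MP_a7b2aa_an.SBT.Par38

/-!
SBF, module PARC (helper39): Parseval on the grid for complex polynomials.
-/

set_option autoImplicit false

namespace Pool.Agent.SBF

open Finset Pool.Agent.SB3 Pool.Agent.SBT

lemma ch_zero_39 {ι : Type} [Fintype ι] [DecidableEq ι] {N : ℕ} [NeZero N] (u : Tor ι N) :
    ch (fun _ : ι => (0 : ℤ)) u = 1 := by
  unfold ch
  simp

lemma parc_gen_39 {ι : Type} [Fintype ι] [DecidableEq ι] {N : ℕ} [NeZero N]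
    (A : Finset (ι → ℤ)) (c : (ι → ℤ) → ℂ)
    (h : ∀ k ∈ A, ∀ k' ∈ A, k ≠ k' → ∃ j, ((k j + -k' j : ℤ) : ZMod N) ≠ 0) :
    ∑ u : Tor ι N, ‖∑ k ∈ A, c k * ch k u‖ ^ 2 = (N : ℝ) ^ Fintype.card ι * ∑ k ∈ A, ‖c k‖ ^ 2 := by
  have key : ∑ u : Tor ι N, ((‖∑ k ∈ A, c k * ch k u‖ ^ 2 : ℝ) : ℂ) =
      (((N : ℝ) ^ Fintype.card ι * ∑ k ∈ A, ‖c k‖ ^ 2 : ℝ) : ℂ) := by
    have h1 : ∀ u : Tor ι N, ((‖∑ k ∈ A, c k * ch k u‖ ^ 2 : ℝ) : ℂ) =
        ∑ k ∈ A, ∑ k' ∈ A, c k * (starRingEnd ℂ) (c k') * ch (fun i => k i + -k' i) u := by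
      intro u
      rw [← Complex.normSq_eq_norm_sq, ← Complex.mul_conj, map_sum, Finset.sum_mul_sum]
      refine sum_congr rfl fun k _ => sum_congr rfl fun k' _ => ?_
      rw [map_mul, ch_conj_38, ← ch_mul_38]
      ring
    simp_rw [h1]
    rw [Finset.sum_comm]
    have h2 : ∀ k ∈ A, ∑ u : Tor ι N, ∑ k' ∈ A,
        c k * (starRingEnd ℂ) (c k') * ch (fun i => k i + -k' i) u =
        (N : ℂ) ^ Fintype.card ι * ((‖c k‖ ^ 2 : ℝ) : ℂ) := by
      intro k hk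
      rw [Finset.sum_comm, Finset.sum_eq_single_of_mem k hk]
      · have e1 : (fun i => k i + -k i) = fun _ : ι => (0 : ℤ) := by
          funext i
          ring
        simp_rw [e1, ch_zero_39]
        rw [Finset.sum_const, card_univ, nsmul_eq_mul, mul_one, ← Complex.normSq_eq_norm_sq,
          ← Complex.mul_conj]
        congr 1
        simp [ZMod.card]
      · intro k' hk' hne
        obtain ⟨j, hj⟩ := h k hk k' hk' (fun e => hne e.symm)
        rw [← Finset.mul_sum, sum_ch_38 _ j hj, mul_zero]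
    rw [Finset.sum_congr rfl h2, ← Finset.mul_sum]
    push_cast
    rfl
  have h3 : ((∑ u : Tor ι N, ‖∑ k ∈ A, c k * ch k u‖ ^ 2 : ℝ) : ℂ) =
      (((N : ℝ) ^ Fintype.card ι * ∑ k ∈ A, ‖c k‖ ^ 2 : ℝ) : ℂ) := by
    rw [← key]
    push_cast
    rfl
  exact_mod_cast h3

/-- PARC -/
theorem parc_39 : StParC := by
  intro m A c hA
  have h1 := parc_gen_39 (N := 2 ^ (2 * m + 3)) A c (by
    intro k hk k' hk' hne
    obtain ⟨j, hj⟩ : ∃ j, k j ≠ k' j := by
      by_contra hcon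
      push Not at hcon
      exact hne (funext hcon)
    refine ⟨j, fun h0 => hj ?_⟩
    rw [ZMod.intCast_zmod_eq_zero_iff_dvd] at h0
    have h2 := hA k hk j
    have h3 := hA k' hk' j
    have h4 : |k j + -k' j| < ((2 ^ (2 * m + 3) : ℕ) : ℤ) := by
      have h5 : |k j + -k' j| ≤ |k j| + |k' j| := by
        have := abs_add_le (k j) (-k' j)
        rwa [abs_neg] at this
      have h6 : ((2 ^ (2 * m + 3) : ℕ) : ℤ) = 8 * 2 ^ (2 * m) := by
        push_cast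
        ring
      rw [h6]
      linarith
    have h7 := Int.eq_zero_of_abs_lt_dvd h0 h4
    linarith)
  rw [h1]
  norm_num

end Pool.Agent.SBF
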