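import Pool.Agent.Lib.MP_a7b2aa_an.SBF.Stmts65
import Pool.Agent.Lib.MP_a7b2aa_an.SBT.Tra70

/-!
SBF, module TRA2 (helper39): average of the squares over the base point.
-/

set_option autoImplicit false

namespace Pool.Agent.SBF

open Finset Pool.Agent.SB3 Pool.Agent.SBT Pool.Agent.SBT.Tra70

/-- TRA2 -/
theorem tra2_39 : StTra2 := by
  intro a b X Y' Z L F i p q hi hp hq
  have h1 : ∀ x y z : Y L, ∑ u, (d3 (Hu a b X Y' Z F u) i p q x y z) ^ 2 =
      ∑ u, (D3 a (X + b * i) (Y' + b * p) (Z + b * q) F u) ^ 2 := by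
    intro x y z
    have h2 : ∀ u, (d3 (Hu a b X Y' Z F u) i p q x y z) ^ 2 =
        (D3 a (X + b * i) (Y' + b * p) (Z + b * q) F (bp a b X Y' Z u i p q x y z)) ^ 2 :=
      fun u => by rw [d3_eq a b X Y' Z L F i p q hi hp hq]
    simp_rw [h2]
    unfold bp
    have e2 := sum_sv_38 (2 : Fin 3) (sh0 a b Z q z) (fun u =>
      (D3 a (X + b * i) (Y' + b * p) (Z + b * q) F (sv 0 (sh0 a b X i x)
        (sv 1 (sh0 a b Y' p y) u))) ^ 2)
    have e1 := sum_sv_38 (1 : Fin 3) (sh0 a b Y' p y) (fun u =>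
      (D3 a (X + b * i) (Y' + b * p) (Z + b * q) F (sv 0 (sh0 a b X i x) u)) ^ 2)
    have e0 := sum_sv_38 (0 : Fin 3) (sh0 a b X i x) (fun u =>
      (D3 a (X + b * i) (Y' + b * p) (Z + b * q) F u) ^ 2)
    exact (e2.trans e1).trans e0
  have hcard : (Fintype.card (Y L) : ℝ) = 2 ^ L := by
    simp [Fintype.card_bool]
  calc ∑ u, ∑ x : Y L, ∑ y : Y L, ∑ z : Y L, (d3 (Hu a b X Y' Z F u) i p q x y z) ^ 2
      = ∑ x : Y L, ∑ y : Y L, ∑ z : Y L, ∑ u, (d3 (Hu a b X Y' Z F u) i p q x y z) ^ 2 := by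
        rw [sum_comm]
        refine sum_congr rfl fun x _ => ?_
        rw [sum_comm]
        refine sum_congr rfl fun y _ => ?_
        rw [sum_comm]
    _ = ∑ x : Y L, ∑ y : Y L, ∑ z : Y L,
          ∑ u, (D3 a (X + b * i) (Y' + b * p) (Z + b * q) F u) ^ 2 := by
        simp_rw [h1]
    _ = 8 ^ L * ∑ u, (D3 a (X + b * i) (Y' + b * p) (Z + b * q) F u) ^ 2 := by
        simp only [sum_const, card_univ, nsmul_eq_mul, hcard]
        have h8 : (8 : ℝ) ^ L = 2 ^ L * (2 ^ L * 2 ^ L) := by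
          rw [← mul_pow, ← mul_pow]
          norm_num
        rw [h8]
        ring

end Pool.Agent.SBF
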