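import Pool.Agent.Lib.MP_a7b2aa_an.SBT.AllW30
import Pool.Agent.Lib.MP_a7b2aa_an.SBF.DiscH65
import Pool.Agent.Lib.MP_a7b2aa_an.SBF.Final65
import Pool.Agent.Lib.MP_a7b2aa_an.SBF.Absorb60
import Pool.Agent.Lib.MP_a7b2aa_an.SBF.D2_38
import Pool.Agent.Lib.MP_a7b2aa_an.SBF.Key38
import Pool.Agent.Lib.MP_a7b2aa_an.SBF.PARC39
import Pool.Agent.Lib.MP_a7b2aa_an.SBF.TRA239
import Pool.Agent.Lib.MP_a7b2aa_an.SBF.Num65

/-!
SBF, helper65: assembly of the theorem for blocks which are flat inside.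
-/

set_option autoImplicit false

namespace Pool.Agent.SBF

open Pool.Agent.SBT

theorem discF_all : StDiscF :=
  discF_65 absw_all (ber3_38 (ber_of_berK_38 (berK_30 (vp_30 fej_30))))
    (low_38 (ext_30 (vp_30 fej_30)) inv_76) tra_70 tra2_39 key_38 d2_38 numA_65 numB_65

theorem finalF_all : StFinalF :=
  finalF_65 discF_all Absorb60.absorb_60 avg_30 parc_39 par_38

end Pool.Agent.SBF
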