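import Pool.Agent.Lib.MP_a7b2aa_an.SBF.Stmts65

/-!
SBF, module DISCF (helper65).
-/

set_option autoImplicit false

namespace Pool.Agent.SBF

open Finset Pool.Agent.SB3 Pool.Agent.SBT Pool.Agent.SBT.D76

section positions

variable (m β y0 z0 k p q : ℕ) (hk1 : β * k ≤ m - y0 - z0) (hkm : k ≤ m) (h : y0 + z0 ≤ m)
  (hp : p < k + 1) (hq : q < k + 1 - p)

include hk1 h hp hq in
lemma pos_eq : 2 * (m - y0 - z0 - β * k) + 2 * β * (k + 1 - 1 - p - q) =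
    2 * (m - (y0 + β * p) - (z0 + β * q)) := by
  obtain ⟨r, hr⟩ : ∃ r, k = p + q + r := ⟨k - p - q, by omega⟩
  have e2 : k + 1 - 1 - p - q = r := by omega
  rw [e2]
  have e3 : β * k = β * p + β * q + β * r := by rw [hr]; ring
  have e4 : 2 * β * r = 2 * (β * r) := by ring
  rw [e3] at hk1 ⊢
  rw [e4]
  omega

include hk1 h hp hq in
lemma tripleA (htra : StTra) (c : (Fin 3 → ℤ) → ℂ) :
    ∑ u : Tor (Fin 3) (2 ^ (2 * m + 3)),
      A3 (Hu (2 * m + 3) (2 * β) (2 * (m - y0 - z0 - β * k)) (2 * y0) (2 * z0) (Fm m c) u :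
        Y (k + 1) → Y (k + 1) → Y (k + 1) → ℝ) (k + 1 - 1 - p - q) p q =
      S1 (D3 (2 * m + 3) (2 * (m - (y0 + β * p) - (z0 + β * q))) (2 * (y0 + β * p))
          (2 * (z0 + β * q)) (Fm m c)) := by
  rw [htra (2 * m + 3) (2 * β) _ (2 * y0) (2 * z0) (k + 1) (Fm m c) (k + 1 - 1 - p - q) p q
    (by omega) (by omega) (by omega)]
  rw [pos_eq m β y0 z0 k p q hk1 h hp hq]
  have e5 : 2 * y0 + 2 * β * p = 2 * (y0 + β * p) := by ring
  have e6 : 2 * z0 + 2 * β * q = 2 * (z0 + β * q) := by ring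
  rw [e5, e6]

include hk1 h hp hq in
lemma tripleS (htra : StTra2) (c : (Fin 3 → ℤ) → ℂ) :
    ∑ u : Tor (Fin 3) (2 ^ (2 * m + 3)), ∑ x, ∑ y, ∑ z,
      (d3 (Hu (2 * m + 3) (2 * β) (2 * (m - y0 - z0 - β * k)) (2 * y0) (2 * z0) (Fm m c) u :
        Y (k + 1) → Y (k + 1) → Y (k + 1) → ℝ) (k + 1 - 1 - p - q) p q x y z) ^ 2 =
      8 ^ (k + 1) * ∑ u, (D3 (2 * m + 3) (2 * (m - (y0 + β * p) - (z0 + β * q)))
        (2 * (y0 + β * p)) (2 * (z0 + β * q)) (Fm m c) u) ^ 2 := by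
  rw [htra (2 * m + 3) (2 * β) _ (2 * y0) (2 * z0) (k + 1) (Fm m c) (k + 1 - 1 - p - q) p q
    (by omega) (by omega) (by omega)]
  rw [pos_eq m β y0 z0 k p q hk1 h hp hq]
  have e5 : 2 * y0 + 2 * β * p = 2 * (y0 + β * p) := by ring
  have e6 : 2 * z0 + 2 * β * q = 2 * (z0 + β * q) := by ring
  rw [e5, e6]

include hk1 hkm h hp hq in
lemma tripleB (hber : StBer3) (htra : StTra) (c : (Fin 3 → ℤ) → ℂ) :
    ∑ u : Tor (Fin 3) (2 ^ (2 * m + 3)),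
      B3 (Hu (2 * m + 3) (2 * β) (2 * (m - y0 - z0 - β * k)) (2 * y0) (2 * z0) (Fm m c) u :
        Y (k + 1) → Y (k + 1) → Y (k + 1) → ℝ) (k + 1 - 1 - p - q) p q ≤
      Bub m β c ![m - (y0 + β * p) - (z0 + β * q), y0 + β * p, z0 + β * q] := by
  set a := 2 * m + 3 with ha
  set X0 := 2 * (m - y0 - z0 - β * k) with hX0
  set L := k + 1 with hL
  obtain ⟨r, hr⟩ : ∃ r, k = p + q + r := ⟨k - p - q, by omega⟩
  have e3 : β * k = β * p + β * q + β * r := by rw [hr]; ring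
  have h1 : ∑ u : Tor (Fin 3) (2 ^ a),
      B3 (Hu a (2 * β) X0 (2 * y0) (2 * z0) (Fm m c) u : Y L → Y L → Y L → ℝ) (L - 1 - p - q) p q =
      ∑ i' ∈ Ico (L - 1 - p - q) L, ∑ p' ∈ Ico p L, ∑ q' ∈ Ico q L,
        (if i' = L - 1 - p - q ∧ p' = p ∧ q' = q then 0
          else 2 ^ ((i' - (L - 1 - p - q)) + (p' - p) + (q' - q)) *
            S1 (D3 a (X0 + 2 * β * i') (2 * y0 + 2 * β * p') (2 * z0 + 2 * β * q') (Fm m c))) := by
    unfold B3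
    rw [Finset.sum_comm]
    refine Finset.sum_congr rfl (fun i' hi' => ?_)
    rw [Finset.sum_comm]
    refine Finset.sum_congr rfl (fun p' hp' => ?_)
    rw [Finset.sum_comm]
    refine Finset.sum_congr rfl (fun q' hq' => ?_)
    rw [mem_Ico] at hi' hp' hq'
    split_ifs with h2
    · simp
    · rw [← Finset.mul_sum, htra a (2 * β) X0 (2 * y0) (2 * z0) L (Fm m c) i' p' q' (by omega)
        (by omega) (by omega)]
  rw [h1]
  refine B3_le m β c L (L - 1 - p - q) p q _ _ _ (by omega)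
    (fun i' p' q' => S1 (D3 a (X0 + 2 * β * i') (2 * y0 + 2 * β * p') (2 * z0 + 2 * β * q')
      (Fm m c))) ?_
  intro i' p' q' hi hp' hq' hi2 hp2 hq2
  have hir : L - 1 - p - q = r := by omega
  rw [hir] at hi ⊢
  obtain ⟨s, hs⟩ : ∃ s, i' = r + s := ⟨i' - r, by omega⟩
  obtain ⟨p1, hp1⟩ : ∃ s, p' = p + s := ⟨p' - p, by omega⟩
  obtain ⟨q1, hq1⟩ : ∃ s, q' = q + s := ⟨q' - q, by omega⟩
  have m1 : β * i' ≤ β * k := Nat.mul_le_mul_left _ (by omega)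
  have m2 : β * p' ≤ β * k := Nat.mul_le_mul_left _ (by omega)
  have m3 : β * q' ≤ β * k := Nat.mul_le_mul_left _ (by omega)
  have n1 : 2 * β * i' = 2 * (β * i') := by ring
  have n2 : 2 * β * p' = 2 * (β * p') := by ring
  have n3 : 2 * β * q' = 2 * (β * q') := by ring
  have b1 : X0 + 2 * β * i' ≤ 2 * m + 1 := by rw [n1, hX0]; omega
  have b2 : 2 * y0 + 2 * β * p' ≤ 2 * m + 1 := by rw [n2]; omega
  have b3 : 2 * z0 + 2 * β * q' ≤ 2 * m + 1 := by rw [n3]; omega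
  have c1 : X0 + 2 * β * i' =
      2 * (m - (y0 + β * p) - (z0 + β * q)) + 2 * β * (i' - r) := by
    have e7 : i' - r = s := by omega
    have e8 : 2 * β * i' = 2 * (β * r) + 2 * (β * s) := by rw [hs]; ring
    have e9 : 2 * β * s = 2 * (β * s) := by ring
    rw [e7, e8, e9, hX0]
    omega
  have c2 : 2 * y0 + 2 * β * p' = 2 * (y0 + β * p) + 2 * β * (p' - p) := by
    have e7 : p' - p = p1 := by omega
    rw [e7, hp1]
    ring
  have c3 : 2 * z0 + 2 * β * q' = 2 * (z0 + β * q) + 2 * β * (q' - q) := by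
    have e7 : q' - q = q1 := by omega
    rw [e7, hq1]
    ring
  have := D_le hber m c _ _ _ b1 b2 b3
  show S1 (D3 a (X0 + 2 * β * i') (2 * y0 + 2 * β * p') (2 * z0 + 2 * β * q') (Fm m c)) ≤ _
  rw [← c1, ← c2, ← c3]
  exact this

end positions

/-- sums of squares and `S1` -/
lemma S1_le_n2 (m : ℕ) (φ : Tor (Fin 3) (2 ^ (2 * m + 3)) → ℝ) :
    S1 φ ≤ Real.sqrt ((2 ^ (2 * m + 3)) ^ 3) * n2 φ := by
  unfold S1 n2
  rw [← Real.sqrt_mul (by positivity)]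
  apply Real.le_sqrt_of_sq_le
  have h2 := sq_sum_le_card_mul_sum_sq (s := (univ : Finset (Tor (Fin 3) (2 ^ (2 * m + 3)))))
    (f := fun u => |φ u|)
  rw [card_univ, card_tor] at h2
  refine h2.trans (le_of_eq ?_)
  congr 1
  refine sum_congr rfl fun u _ => ?_
  exact sq_abs _

/-- the sum of the leaks at a block with small neighbours -/
lemma bub_le (CB : ℝ) (β m : ℕ) (c : (Fin 3 → ℤ) → ℂ) (B : ℝ) (hB : 0 ≤ B)
    (l : Fin 3 → ℕ)
    (hnum : ∑ l' ∈ Finset.Nat.antidiagonalTuple 3 m,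
      ∑ t ∈ Fintype.piFinset (fun _ : Fin 3 => range (m + 2)),
      (if t = 0 then 0 else 2 ^ (t 0 + t 1 + t 2) *
        (1 / 2 : ℝ) ^ ((2 * l 0 + 2 * β * t 0 - 2 * l' 0) + (2 * l 1 + 2 * β * t 1 - 2 * l' 1) +
          (2 * l 2 + 2 * β * t 2 - 2 * l' 2))) * (36 / 25) ^ dd l l' ≤
      CB * (18 / 25 : ℝ) ^ (β / 2))
    (hS : ∀ l' ∈ Finset.Nat.antidiagonalTuple 3 m,
      S1 (PT (N := 2 ^ (2 * m + 3)) (blk l') c) ≤ B * (36 / 25) ^ dd l l') :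
    Bub m β c l ≤ 32 ^ 3 * (CB * (18 / 25 : ℝ) ^ (β / 2)) * B := by
  have h2 : Bub m β c l =
      ∑ l' ∈ Finset.Nat.antidiagonalTuple 3 m,
        ∑ t ∈ Fintype.piFinset (fun _ : Fin 3 => range (m + 2)),
      32 ^ 3 * TT m c l' * (if t = 0 then 0 else 2 ^ (t 0 + t 1 + t 2) *
      (1 / 2 : ℝ) ^ ((2 * l 0 + 2 * β * t 0 - 2 * l' 0) + (2 * l 1 + 2 * β * t 1 - 2 * l' 1) +
        (2 * l 2 + 2 * β * t 2 - 2 * l' 2))) := by
    unfold Bub
    rw [Finset.sum_comm]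
    refine Finset.sum_congr rfl (fun t _ => ?_)
    split_ifs with h3
    · simp
    · unfold Dub
      rw [Finset.mul_sum, Finset.mul_sum]
      refine Finset.sum_congr rfl (fun l' _ => ?_)
      ring
  rw [h2]
  calc _ ≤ ∑ l' ∈ Finset.Nat.antidiagonalTuple 3 m,
        ∑ t ∈ Fintype.piFinset (fun _ : Fin 3 => range (m + 2)),
      (32 ^ 3 * B) * ((if t = 0 then 0 else 2 ^ (t 0 + t 1 + t 2) *
      (1 / 2 : ℝ) ^ ((2 * l 0 + 2 * β * t 0 - 2 * l' 0) + (2 * l 1 + 2 * β * t 1 - 2 * l' 1) +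
        (2 * l 2 + 2 * β * t 2 - 2 * l' 2))) * (36 / 25) ^ dd l l') := by
        refine Finset.sum_le_sum (fun l' hl' => Finset.sum_le_sum (fun t _ => ?_))
        have h3 : TT m c l' ≤ B * (36 / 25) ^ dd l l' := hS l' hl'
        have h4 : (0 : ℝ) ≤ (if t = 0 then 0 else 2 ^ (t 0 + t 1 + t 2) *
          (1 / 2 : ℝ) ^ ((2 * l 0 + 2 * β * t 0 - 2 * l' 0) +
            (2 * l 1 + 2 * β * t 1 - 2 * l' 1) + (2 * l 2 + 2 * β * t 2 - 2 * l' 2))) := by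
          split_ifs <;> positivity
        have h5 := mul_le_mul_of_nonneg_left h3 (show (0 : ℝ) ≤ 32 ^ 3 by norm_num)
        have h6 := mul_le_mul_of_nonneg_right h5 h4
        refine h6.trans (le_of_eq ?_)
        ring
    _ = (32 ^ 3 * B) * ∑ l' ∈ Finset.Nat.antidiagonalTuple 3 m,
        ∑ t ∈ Fintype.piFinset (fun _ : Fin 3 => range (m + 2)),
        (if t = 0 then 0 else 2 ^ (t 0 + t 1 + t 2) *
      (1 / 2 : ℝ) ^ ((2 * l 0 + 2 * β * t 0 - 2 * l' 0) + (2 * l 1 + 2 * β * t 1 - 2 * l' 1) +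
        (2 * l 2 + 2 * β * t 2 - 2 * l' 2))) * (36 / 25) ^ dd l l' := by
        rw [Finset.mul_sum]
        refine Finset.sum_congr rfl (fun l' _ => ?_)
        rw [Finset.mul_sum]
    _ ≤ (32 ^ 3 * B) * (CB * (18 / 25 : ℝ) ^ (β / 2)) :=
        mul_le_mul_of_nonneg_left hnum (by positivity)
    _ = _ := by ring

/-- the second moment at a block with small neighbours -/
lemma sec_le (hD2 : StD2) (CA : ℝ) (m : ℕ) (c : (Fin 3 → ℤ) → ℂ) (B : ℝ) (hB : 0 ≤ B)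
    (l : Fin 3 → ℕ) (hl : l ∈ Finset.Nat.antidiagonalTuple 3 m)
    (hnum : ∑ l' ∈ Finset.Nat.antidiagonalTuple 3 m,
      (1 / 2 : ℝ) ^ ((2 * l 0 - 2 * l' 0) + (2 * l 1 - 2 * l' 1) + (2 * l 2 - 2 * l' 2)) *
        (36 / 25) ^ dd l l' ≤ CA)
    (hS : ∀ l' ∈ Finset.Nat.antidiagonalTuple 3 m,
      n2 (PT (N := 2 ^ (2 * m + 3)) (blk l') c) ≤ B * (36 / 25) ^ dd l l') :
    n2 (D3 (2 * m + 3) (2 * l 0) (2 * l 1) (2 * l 2) (Fm m c)) ≤ 32 ^ 3 * CA * B := by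
  rw [Finset.Nat.mem_antidiagonalTuple, Fin.sum_univ_three] at hl
  refine (hD2 m c (2 * l 0) (2 * l 1) (2 * l 2) (by omega) (by omega) (by omega)).trans ?_
  calc 32 ^ 3 * ∑ l' ∈ Finset.Nat.antidiagonalTuple 3 m,
      (1 / 2 : ℝ) ^ ((2 * l 0 - 2 * l' 0) + (2 * l 1 - 2 * l' 1) + (2 * l 2 - 2 * l' 2)) *
        n2 (PT (N := 2 ^ (2 * m + 3)) (blk l') c)
      ≤ 32 ^ 3 * ∑ l' ∈ Finset.Nat.antidiagonalTuple 3 m, B *
      ((1 / 2 : ℝ) ^ ((2 * l 0 - 2 * l' 0) + (2 * l 1 - 2 * l' 1) + (2 * l 2 - 2 * l' 2)) *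
        (36 / 25) ^ dd l l') := by
        refine mul_le_mul_of_nonneg_left (Finset.sum_le_sum (fun l' hl' => ?_)) (by norm_num)
        have h1 := mul_le_mul_of_nonneg_left (hS l' hl') (show (0 : ℝ) ≤
          (1 / 2 : ℝ) ^ ((2 * l 0 - 2 * l' 0) + (2 * l 1 - 2 * l' 1) + (2 * l 2 - 2 * l' 2))
          by positivity)
        refine h1.trans (le_of_eq ?_)
        ring
    _ = 32 ^ 3 * (B * ∑ l' ∈ Finset.Nat.antidiagonalTuple 3 m,
      (1 / 2 : ℝ) ^ ((2 * l 0 - 2 * l' 0) + (2 * l 1 - 2 * l' 1) + (2 * l 2 - 2 * l' 2)) *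
        (36 / 25) ^ dd l l') := by
        congr 1
        rw [Finset.mul_sum]
    _ ≤ 32 ^ 3 * (B * CA) :=
        mul_le_mul_of_nonneg_left (mul_le_mul_of_nonneg_left hnum hB) (by norm_num)
    _ = _ := by ring

end Pool.Agent.SBF
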