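import Pool.Agent.Lib.MP_a7b2aa_an.SBF.DiscF65

/-!
SBF, module DISCF (helper65), second part: one class, all classes.
-/

set_option autoImplicit false

namespace Pool.Agent.SBF

open Finset Pool.Agent.SB3 Pool.Agent.SBT Pool.Agent.SBT.D76

open Classical in
/-- one class -/
lemma class_good (δ C0 : ℝ) (hδ : 0 < δ) (hC0 : 0 < C0)
    (habs : ∀ (L : ℕ) (H : Y L → Y L → Y L → ℝ) (M w : ℝ), 1 ≤ L → 0 < w →
      (∀ x y z, |H x y z| ≤ M) →
      w * ∑ p ∈ range L, ∑ q ∈ range (L - p), ∑ x : Y L, ∑ y : Y L, ∑ z : Y L,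
        (if Gd H δ w p q x y z then (1 : ℝ) else 0) ≤ C0 * Real.sqrt L * M * 8 ^ L)
    (hkey : StKey) (hber : StBer3) (htra : StTra) (htra2 : StTra2) (m β y0 z0 : ℕ)
    (c : (Fin 3 → ℤ) → ℂ) (M w1 κ : ℝ) (hM : ∀ u, |Fm m c u| ≤ M) (hM0 : 0 ≤ M) (hm : 1 ≤ m)
    (h : y0 + z0 ≤ m) (hw1 : 0 < w1) (hκ : 0 < κ) (P : (Fin 3 → ℕ) → Prop)
    (hP : ∀ l, P l → 4 * w1 * (2 ^ (2 * m + 3)) ^ 3 ≤
        S1 (D3 (2 * m + 3) (2 * l 0) (2 * l 1) (2 * l 2) (Fm m c)) ∧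
      Bub m β c l ≤ w1 * (2 ^ (2 * m + 3)) ^ 3 ∧
      Bub m β c l ≤ δ * w1 / κ * (2 ^ (2 * m + 3)) ^ 3 ∧
      ∑ u, (D3 (2 * m + 3) (2 * l 0) (2 * l 1) (2 * l 2) (Fm m c) u) ^ 2 ≤
        κ * w1 ^ 2 * (2 ^ (2 * m + 3)) ^ 3) :
    w1 * ∑ p ∈ range ((m - y0 - z0) / β + 1), ∑ q ∈ range ((m - y0 - z0) / β + 1 - p),
        (if P ![m - (y0 + β * p) - (z0 + β * q), y0 + β * p, z0 + β * q] then (1 : ℝ) else 0) ≤
      κ * C0 * (Real.sqrt (2 * m) * M) := by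
  set k := (m - y0 - z0) / β with hk
  have hk1 : β * k ≤ m - y0 - z0 := Nat.mul_div_le _ _
  have hkm : k ≤ m := by
    calc k ≤ m - y0 - z0 := Nat.div_le_self _ _
      _ ≤ m := by omega
  clear_value k
  clear hk
  set a := 2 * m + 3 with ha
  set X0 := 2 * (m - y0 - z0 - β * k) with hX0
  set HH : Tor (Fin 3) (2 ^ a) → Y (k + 1) → Y (k + 1) → Y (k + 1) → ℝ :=
    fun u => Hu a (2 * β) X0 (2 * y0) (2 * z0) (Fm m c) u with hHH
  have hN : (0 : ℝ) < (2 ^ a) ^ 3 := by positivity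
  have h8 : (0 : ℝ) < 8 ^ (k + 1) := by positivity
  -- one triple
  have one : ∀ p ∈ range (k + 1), ∀ q ∈ range (k + 1 - p),
      (if P ![m - (y0 + β * p) - (z0 + β * q), y0 + β * p, z0 + β * q] then (1 : ℝ) else 0) *
        ((2 ^ a) ^ 3 * 8 ^ (k + 1)) ≤
      κ * ∑ u, ∑ x : Y (k + 1), ∑ y : Y (k + 1), ∑ z : Y (k + 1),
        (if Gd (HH u) δ w1 p q x y z then (1 : ℝ) else 0) := by
    intro p hp q hq
    rw [mem_range] at hp hq
    have hG : 0 ≤ ∑ u, ∑ x : Y (k + 1), ∑ y : Y (k + 1), ∑ z : Y (k + 1),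
        (if Gd (HH u) δ w1 p q x y z then (1 : ℝ) else 0) := by
      refine Finset.sum_nonneg (fun _ _ => Finset.sum_nonneg (fun _ _ =>
        Finset.sum_nonneg (fun _ _ => Finset.sum_nonneg (fun _ _ => ?_))))
      split_ifs <;> norm_num
    split_ifs with hPl
    · obtain ⟨g1, g2, g3, g4⟩ := hP _ hPl
      have hA := tripleA m β y0 z0 k p q hk1 h hp hq htra c
      have hB := tripleB m β y0 z0 k p q hk1 hkm h hp hq hber htra c
      have hS := tripleS m β y0 z0 k p q hk1 h hp hq htra2 c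
      have v0 : (![m - (y0 + β * p) - (z0 + β * q), y0 + β * p, z0 + β * q] : Fin 3 → ℕ) 0 =
        m - (y0 + β * p) - (z0 + β * q) := rfl
      have v1 : (![m - (y0 + β * p) - (z0 + β * q), y0 + β * p, z0 + β * q] : Fin 3 → ℕ) 1 =
        y0 + β * p := rfl
      have v2 : (![m - (y0 + β * p) - (z0 + β * q), y0 + β * p, z0 + β * q] : Fin 3 → ℕ) 2 =
        z0 + β * q := rfl
      rw [v0, v1, v2] at g1 g4
      have hcard := card_tor a
      have key := hkey (k + 1) (Tor (Fin 3) (2 ^ a)) HH p q δ w1 κ (by omega) hδ hw1 hκ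
        (by rw [hcard, hA]; exact g1)
        (by rw [hcard]; exact hB.trans g2)
        (by rw [hcard]; exact hB.trans g3)
        (by
          rw [hcard, hS]
          have := mul_le_mul_of_nonneg_left g4 h8.le
          refine this.trans (le_of_eq ?_)
          ring)
      rw [hcard] at key
      rw [one_mul]
      convert key using 2
    · rw [zero_mul]
      exact mul_nonneg hκ.le hG
  -- the level inequality, summed over the base points
  have hsum : w1 * ∑ p ∈ range (k + 1), ∑ q ∈ range (k + 1 - p), ∑ u, ∑ x : Y (k + 1),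
      ∑ y : Y (k + 1), ∑ z : Y (k + 1), (if Gd (HH u) δ w1 p q x y z then (1 : ℝ) else 0) ≤
      (2 ^ a) ^ 3 * (C0 * Real.sqrt (k + 1 : ℕ) * M * 8 ^ (k + 1)) := by
    have h1 : ∑ p ∈ range (k + 1), ∑ q ∈ range (k + 1 - p), ∑ u, ∑ x : Y (k + 1),
        ∑ y : Y (k + 1), ∑ z : Y (k + 1), (if Gd (HH u) δ w1 p q x y z then (1 : ℝ) else 0) =
        ∑ u, ∑ p ∈ range (k + 1), ∑ q ∈ range (k + 1 - p), ∑ x : Y (k + 1),
        ∑ y : Y (k + 1), ∑ z : Y (k + 1), (if Gd (HH u) δ w1 p q x y z then (1 : ℝ) else 0) := by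
      rw [Finset.sum_comm]
      refine Finset.sum_congr rfl (fun p _ => ?_)
      rw [Finset.sum_comm]
    rw [h1, Finset.mul_sum]
    calc _ ≤ ∑ u : Tor (Fin 3) (2 ^ a), C0 * Real.sqrt (k + 1 : ℕ) * M * 8 ^ (k + 1) :=
          Finset.sum_le_sum (fun u _ => habs (k + 1) (HH u) M w1 (by omega) hw1
            (fun x y z => hM _))
      _ = _ := by
          rw [Finset.sum_const, card_univ, nsmul_eq_mul, card_tor]
  have htot : (∑ p ∈ range (k + 1), ∑ q ∈ range (k + 1 - p),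
      (if P ![m - (y0 + β * p) - (z0 + β * q), y0 + β * p, z0 + β * q] then (1 : ℝ) else 0)) *
        ((2 ^ a) ^ 3 * 8 ^ (k + 1)) ≤
      κ * ∑ p ∈ range (k + 1), ∑ q ∈ range (k + 1 - p), ∑ u, ∑ x : Y (k + 1),
      ∑ y : Y (k + 1), ∑ z : Y (k + 1), (if Gd (HH u) δ w1 p q x y z then (1 : ℝ) else 0) := by
    rw [Finset.sum_mul, Finset.mul_sum]
    refine Finset.sum_le_sum (fun p hp => ?_)
    rw [Finset.sum_mul, Finset.mul_sum]
    exact Finset.sum_le_sum (fun q hq => one p hp q hq)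
  have hLm : Real.sqrt ((k + 1 : ℕ) : ℝ) ≤ Real.sqrt (2 * m) := by
    apply Real.sqrt_le_sqrt
    have : k + 1 ≤ 2 * m := by omega
    exact_mod_cast this
  set S := ∑ p ∈ range (k + 1), ∑ q ∈ range (k + 1 - p),
      (if P ![m - (y0 + β * p) - (z0 + β * q), y0 + β * p, z0 + β * q] then (1 : ℝ) else 0)
    with hS
  set G := ∑ p ∈ range (k + 1), ∑ q ∈ range (k + 1 - p), ∑ u, ∑ x : Y (k + 1),
      ∑ y : Y (k + 1), ∑ z : Y (k + 1), (if Gd (HH u) δ w1 p q x y z then (1 : ℝ) else 0)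
    with hG
  have hNN : (0 : ℝ) < (2 ^ a) ^ 3 * 8 ^ (k + 1) := by positivity
  apply le_of_mul_le_mul_right _ hNN
  calc w1 * S * ((2 ^ a) ^ 3 * 8 ^ (k + 1)) = w1 * (S * ((2 ^ a) ^ 3 * 8 ^ (k + 1))) := by ring
    _ ≤ w1 * (κ * G) := mul_le_mul_of_nonneg_left htot hw1.le
    _ = κ * (w1 * G) := by ring
    _ ≤ κ * ((2 ^ a) ^ 3 * (C0 * Real.sqrt (k + 1 : ℕ) * M * 8 ^ (k + 1))) :=
        mul_le_mul_of_nonneg_left hsum hκ.le
    _ = (κ * C0 * (Real.sqrt (k + 1 : ℕ) * M)) * ((2 ^ a) ^ 3 * 8 ^ (k + 1)) := by ring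
    _ ≤ (κ * C0 * (Real.sqrt (2 * m) * M)) * ((2 ^ a) ^ 3 * 8 ^ (k + 1)) := by
        refine mul_le_mul_of_nonneg_right ?_ hNN.le
        refine mul_le_mul_of_nonneg_left ?_ (by positivity)
        exact mul_le_mul_of_nonneg_right hLm hM0

end Pool.Agent.SBF
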