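import Pool.Agent.Lib.MP_a7b2aa_an.SBT.Disc76
import Pool.Agent.Lib.MP_a7b2aa_an.SBT.StmtsT30

/-!
SBF (helper65): the trigonometric small ball inequality in dimension 3 WITHOUT logarithm for blocks
which are flat inside. Statements (as `Prop`s) of the modules. Everything uses SBT.

Final theorem: for every `K` there is `C > 0` such that for all `m ≥ 1`, all coefficients `c` and all
`w > 0` with `(∑_{k ∈ blk l} |c k| ^ 2) ^ (1/2) ≤ K max(w, ‖P_l‖_1)` for all `l`: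
`C w #{l : ‖P_l‖_1 ≥ w} ≤ (2 m) ^ (1/2) ‖∑ P_l‖_∞`.
-/

set_option autoImplicit false

namespace Pool.Agent.SBF

open Finset Pool.Agent.SB3 Pool.Agent.SBT

/-- distance of two blocks (first two coordinates) -/
def dd (l l' : Fin 3 → ℕ) : ℕ := ((l 0 : ℤ) - l' 0).natAbs + ((l 1 : ℤ) - l' 1).natAbs

/-- `ℓ²` norm on the discrete torus -/
noncomputable def n2 {ι : Type} [Fintype ι] [DecidableEq ι] {N : ℕ} [NeZero N]
    (φ : Tor ι N → ℝ) : ℝ := Real.sqrt (∑ u, φ u ^ 2)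

/-- D2: mixed differences in `ℓ²` (from BERK, Minkowski) -/
def StD2 : Prop := ∀ (m : ℕ) (c : (Fin 3 → ℤ) → ℂ) (X Y' Z : ℕ), X ≤ 2 * m + 1 →
    Y' ≤ 2 * m + 1 → Z ≤ 2 * m + 1 →
    n2 (D3 (2 * m + 3) X Y' Z (Fm m c)) ≤ 32 ^ 3 * ∑ l ∈ Finset.Nat.antidiagonalTuple 3 m,
      (1 / 2 : ℝ) ^ ((X - 2 * l 0) + (Y' - 2 * l 1) + (Z - 2 * l 2)) *
        n2 (PT (N := 2 ^ (2 * m + 3)) (blk l) c)

/-- NUMA: the sum over the neighbours with growth `(36/25) ^ distance` -/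
def StNumA : Prop := ∃ C : ℝ, 0 < C ∧ ∀ (m : ℕ) (l : Fin 3 → ℕ),
    l ∈ Finset.Nat.antidiagonalTuple 3 m →
    ∑ l' ∈ Finset.Nat.antidiagonalTuple 3 m,
      (1 / 2 : ℝ) ^ ((2 * l 0 - 2 * l' 0) + (2 * l 1 - 2 * l' 1) + (2 * l 2 - 2 * l' 2)) *
        (36 / 25) ^ dd l l' ≤ C

/-- NUMB: the same for the finer positions `l + β t`, `t ≠ 0` -/
def StNumB : Prop := ∃ C : ℝ, 0 < C ∧ ∀ (β m T : ℕ) (l : Fin 3 → ℕ), 10 ≤ β →
    l ∈ Finset.Nat.antidiagonalTuple 3 m →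
    ∑ l' ∈ Finset.Nat.antidiagonalTuple 3 m, ∑ t ∈ Fintype.piFinset (fun _ : Fin 3 => range T),
      (if t = 0 then 0 else 2 ^ (t 0 + t 1 + t 2) *
        (1 / 2 : ℝ) ^ ((2 * l 0 + 2 * β * t 0 - 2 * l' 0) + (2 * l 1 + 2 * β * t 1 - 2 * l' 1) +
          (2 * l 2 + 2 * β * t 2 - 2 * l' 2))) * (36 / 25) ^ dd l l' ≤
      C * (18 / 25 : ℝ) ^ (β / 2)

/-- KEY: one triple; Paley-Zygmund for `|cf|` and the Markov inequality for the leaks.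
(LEV2, LEV3 of SBT and Jensen for `cf ^ 2`.) -/
def StKey : Prop := ∀ (L : ℕ) (ι : Type) [Fintype ι] (H : ι → Y L → Y L → Y L → ℝ)
    (p q : ℕ) (δ w κ : ℝ), p + q < L → 0 < δ → 0 < w → 0 < κ →
    4 * w * Fintype.card ι ≤ ∑ u, A3 (H u) (L - 1 - p - q) p q →
    ∑ u, B3 (H u) (L - 1 - p - q) p q ≤ w * Fintype.card ι →
    ∑ u, B3 (H u) (L - 1 - p - q) p q ≤ δ * w / κ * Fintype.card ι →
    ∑ u, ∑ x, ∑ y, ∑ z, (d3 (H u) (L - 1 - p - q) p q x y z) ^ 2 ≤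
      κ * w ^ 2 * (Fintype.card ι * 8 ^ L) →
    Fintype.card ι * (8 : ℝ) ^ L ≤
      κ * ∑ u, ∑ x : Y L, ∑ y : Y L, ∑ z : Y L,
        (open Classical in if Gd (H u) δ w p q x y z then (1 : ℝ) else 0)

/-- TRA2: average of the squares over the base point -/
def StTra2 : Prop := ∀ (a b X Y' Z L : ℕ) (F : Tor (Fin 3) (2 ^ a) → ℝ) (i p q : ℕ),
    i < L → p < L → q < L →
    ∑ u, ∑ x : Y L, ∑ y : Y L, ∑ z : Y L, (d3 (Hu a b X Y' Z F u) i p q x y z) ^ 2 =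
      8 ^ L * ∑ u, (D3 a (X + b * i) (Y' + b * p) (Z + b * q) F u) ^ 2

/-- the number of blocks with property `P` -/
noncomputable def cnt (m : ℕ) (P : (Fin 3 → ℕ) → Prop) : ℝ :=
  open Classical in (((Finset.Nat.antidiagonalTuple 3 m).filter P).card : ℝ)

/-- DISCF: the theorem on the discrete torus for blocks without large neighbours -/
def StDiscF : Prop := ∀ K : ℝ, 1 ≤ K → ∃ C : ℝ, 0 < C ∧ ∀ (m : ℕ) (c : (Fin 3 → ℤ) → ℂ)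
    (T : (Fin 3 → ℕ) → ℝ) (M w : ℝ), 1 ≤ m → 0 < w → (∀ u, |Fm m c u| ≤ M) →
    (∀ l ∈ Finset.Nat.antidiagonalTuple 3 m, n2 (PT (N := 2 ^ (2 * m + 3)) (blk l) c) ≤
      K * max w (T l) * Real.sqrt ((2 ^ (2 * m + 3)) ^ 3)) →
    w * cnt m (fun l => (∀ j, 1 ≤ l j) ∧
        w / 4 * (2 ^ (2 * m + 3)) ^ 3 ≤ S1 (PT (N := 2 ^ (2 * m + 3)) (blk l) c) ∧
        ∀ l' ∈ Finset.Nat.antidiagonalTuple 3 m, T l' ≤ 2000 * w * (36 / 25) ^ dd l l') ≤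
      C * Real.sqrt (2 * m) * M

/-- ABSORB: blocks with a large neighbour are charged to it (pure combinatorics) -/
def StAbsorb : Prop := ∀ (m : ℕ) (T : (Fin 3 → ℕ) → ℝ) (A w : ℝ), 0 < w → 0 ≤ A →
    (∀ w', w ≤ w' → w' * cnt m (fun l => w' ≤ T l ∧
      ∀ l' ∈ Finset.Nat.antidiagonalTuple 3 m, T l' ≤ 2000 * w' * (36 / 25) ^ dd l l') ≤ A) →
    w * cnt m (fun l => w ≤ T l) ≤ 2 * A

/-- PARC: Parseval on the grid for complex polynomials with frequencies in the blocks -/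
def StParC : Prop := ∀ (m : ℕ) (A : Finset (Fin 3 → ℤ)) (c : (Fin 3 → ℤ) → ℂ),
    (∀ k ∈ A, ∀ j, |k j| < (2 : ℤ) ^ (2 * m)) →
    ∑ u : Tor (Fin 3) (2 ^ (2 * m + 3)), ‖∑ k ∈ A, c k * ch k u‖ ^ 2 =
      (2 ^ (2 * m + 3)) ^ 3 * ∑ k ∈ A, ‖c k‖ ^ 2

/-- FINALF: the theorem -/
def StFinalF : Prop := ∀ K : ℝ, 1 ≤ K → ∃ C : ℝ, 0 < C ∧ ∀ (m : ℕ) (c : (Fin 3 → ℤ) → ℂ)
    (w : ℝ), 1 ≤ m → 0 < w →
    (∀ l ∈ Finset.Nat.antidiagonalTuple 3 m,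
      Real.sqrt (∑ k ∈ blk l, ‖c k‖ ^ 2) ≤ K * max w (norm1 (blockPoly c l))) →
    C * (w * cnt m (fun l => w ≤ norm1 (blockPoly c l))) ≤
      ((2 * m : ℕ) : ℝ) ^ ((1 : ℝ) / 2) *
        ⨆ x : Fin 3 → ℝ, ‖∑ l ∈ Finset.Nat.antidiagonalTuple 3 m, blockPoly c l x‖

end Pool.Agent.SBF
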